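import Mathlib

/-!
# Burling graphs: triangle-free graphs of unbounded chromatic number in which every induced subgraph
is `3`-colourable or has a star cutset

The vertices are the nodes of a rooted tree; `D u w` says that `w` is a proper descendant of `u`.
The edges are given by arcs `A v w`.
-/

set_option autoImplicit false

namespace Pool.Agent.R50.Burling

/-- The axioms used for the tree order `D` and the arcs `A`; the rank `ρ` decreases along arcs. -/
structure Ax {V : Type} (D A : V → V → Prop) (ρ : V → ℕ) : Prop where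
  irr : ∀ u, ¬ D u u
  trans : ∀ u v w, D u v → D v w → D u w
  chain : ∀ a b w, D a w → D b w → a = b ∨ D a b ∨ D b a
  inc : ∀ v w, A v w → ¬ D v w ∧ ¬ D w v
  out : ∀ v w z, A v w → A v z → w = z ∨ D w z ∨ D z w
  up : ∀ u v w, A v w → D u w → ¬ D u v → A v u
  down : ∀ u v w, D u v → A v w → D u w
  rank : ∀ v w, A v w → ρ w < ρ v

variable {V : Type} {D A : V → V → Prop} {ρ : V → ℕ}

/-- The graph of the arcs. -/
def graph (h : Ax D A ρ) : SimpleGraph V where
  Adj v w := A v w ∨ A w v
  symm := ⟨fun _ _ h => h.symm⟩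
  loopless := ⟨fun v h2 => by
    rcases h2 with h2 | h2 <;> exact absurd (h.rank _ _ h2) (lt_irrefl _)⟩

theorem triangleFree (h : Ax D A ρ) : (graph h).CliqueFree 3 := by
  classical
  intro s hs
  rw [SimpleGraph.is3Clique_iff] at hs
  obtain ⟨a, b, c, hab, hac, hbc, -⟩ := hs
  -- a vertex with two out-arcs to adjacent vertices is impossible
  have key : ∀ x y z, A x y → A x z → (A y z ∨ A z y) → False := by
    intro x y z hxy hxz hyz
    rcases h.out x y z hxy hxz with h1 | h1 | h1
    · subst h1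
      rcases hyz with h2 | h2 <;> exact absurd (h.rank _ _ h2) (lt_irrefl _)
    · rcases hyz with h2 | h2
      · exact (h.inc _ _ h2).1 h1
      · exact (h.inc _ _ h2).2 h1
    · rcases hyz with h2 | h2
      · exact (h.inc _ _ h2).2 h1
      · exact (h.inc _ _ h2).1 h1
  have r := h.rank
  rcases hab with h1 | h1 <;> rcases hac with h2 | h2 <;> rcases hbc with h3 | h3
  · exact key _ _ _ h1 h2 (Or.inl h3)
  · exact key _ _ _ h1 h2 (Or.inr h3)
  · have := r _ _ h1; have := r _ _ h2; have := r _ _ h3; omega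
  · exact key _ _ _ h2 h3 (Or.inl h1)
  · exact key _ _ _ h1 h3 (Or.inl h2)
  · have := r _ _ h1; have := r _ _ h2; have := r _ _ h3; omega
  · exact key _ _ _ h1 h3 (Or.inr h2)
  · exact key _ _ _ h2 h3 (Or.inr h1)

/-- an antichain induces a forest, hence has a `2`-colouring -/
theorem antichain_color (h : Ax D A ρ) (L : Set V) (hL : ∀ x ∈ L, ∀ y ∈ L, ¬ D x y) :
    ∃ c : V → Bool, ∀ x ∈ L, ∀ y ∈ L, A x y → c x ≠ c y := by
  classical
  have key : ∀ n : ℕ, ∃ c : V → Bool, ∀ x ∈ L, ∀ y ∈ L, ρ x < n → A x y → c x ≠ c y := by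
    intro n
    induction n with
    | zero => exact ⟨fun _ => true, fun x _ y _ hx => absurd hx (Nat.not_lt_zero _)⟩
    | succ n ih =>
      obtain ⟨c, hc⟩ := ih
      refine ⟨fun x => if ρ x = n then
        (if hx : ∃ y ∈ L, A x y then ! (c hx.choose) else true) else c x, ?_⟩
      intro x hx y hy hxn hxy
      have hr := h.rank _ _ hxy
      have hyn : ρ y ≠ n := by omega
      by_cases hxn' : ρ x = n
      · have hex : ∃ y ∈ L, A x y := ⟨y, hy, hxy⟩
        have hy' : hex.choose = y := by
          obtain ⟨h1, h2⟩ := hex.choose_spec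
          rcases h.out _ _ _ h2 hxy with h3 | h3 | h3
          · exact h3
          · exact absurd h3 (hL _ h1 _ hy)
          · exact absurd h3 (hL _ hy _ h1)
        simp only [hxn', hyn, if_true, if_false, dif_pos hex, hy']
        cases c y <;> simp
      · simp only [hxn', hyn, if_false]
        exact hc x hx y hy (by omega) hxy
  rcases finite_or_infinite V with hV | hV
  · obtain ⟨N, hN⟩ := (Set.finite_range ρ).bddAbove
    obtain ⟨c, hc⟩ := key (N + 1)
    exact ⟨c, fun x hx y hy hxy => hc x hx y hy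
      (Nat.lt_succ_of_le (hN (Set.mem_range_self x))) hxy⟩
  · -- the colour is the parity of the length of the out-path; not needed in the finite case, but
    -- obtained in the same way by well-founded recursion
    let F : ∀ x : V, (∀ y : V, ρ y < ρ x → Bool) → Bool := fun x rec =>
      if hx : ∃ y ∈ L, A x y then ! (rec hx.choose (h.rank _ _ hx.choose_spec.2)) else true
    let wf : WellFounded (fun y x : V => ρ y < ρ x) := (measure ρ).wf
    let c : V → Bool := wf.fix F
    refine ⟨c, ?_⟩
    intro x hx y hy hxy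
    have hex : ∃ y ∈ L, A x y := ⟨y, hy, hxy⟩
    have hy' : hex.choose = y := by
      obtain ⟨h1, h2⟩ := hex.choose_spec
      rcases h.out _ _ _ h2 hxy with h3 | h3 | h3
      · exact h3
      · exact absurd h3 (hL _ h1 _ hy)
      · exact absurd h3 (hL _ hy _ h1)
    have h1 : c x = ! (c y) := by
      show wf.fix F x = _
      rw [wf.fix_eq]
      show (if hx : ∃ y ∈ L, A x y then ! (c hx.choose) else true) = _
      rw [dif_pos hex, hy']
    rw [h1]
    cases c y <;> simp

/-- Every induced subgraph is `3`-colourable or has a star cutset. -/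
theorem cutset (h : Ax D A ρ) (T : Set V) : ((graph h).induce T).Colorable 3 ∨
    ∃ S : Set V, S ⊆ T ∧ (∃ v ∈ S, ∀ w ∈ S, w ≠ v → (graph h).Adj v w) ∧
      ∃ a b : ↥(T \ S), ¬ ((graph h).induce (T \ S)).Reachable a b := by
  classical
  rcases T.eq_empty_or_nonempty with rfl | hTne
  · left
    exact ⟨SimpleGraph.Coloring.mk (fun _ => 0) (fun {v} => absurd v.2 (Set.notMem_empty _))⟩
  by_cases hcase : ∃ u ∈ T, ∃ w ∈ T, D u w ∧ ∃ z ∈ T, z ≠ u ∧ ¬ D u z ∧ ¬ A z u
  · right
    obtain ⟨u, hu, w, hw, huw, z, hz, hzu, hz1, hz2⟩ := hcase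
    let S : Set V := {v | v ∈ T ∧ (v = u ∨ A v u)}
    have hwS : w ∉ S := by
      rintro ⟨-, h1 | h1⟩
      · subst h1
        exact h.irr _ huw
      · exact (h.inc _ _ h1).2 huw
    have hzS : z ∉ S := by
      rintro ⟨-, h1 | h1⟩
      · exact hzu h1
      · exact hz2 h1
    refine ⟨S, fun v hv => hv.1, ⟨u, ⟨hu, Or.inl rfl⟩, ?_⟩, ⟨w, hw, hwS⟩, ⟨z, hz, hzS⟩, ?_⟩
    · rintro v ⟨-, h1 | h1⟩ hne
      · exact absurd h1 hne
      · exact Or.inr h1
    · -- the descendants of `u` form a union of components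
      have key : ∀ a b : ↥(T \ S), ((graph h).induce (T \ S)).Adj a b → D u a.1 → D u b.1 := by
        rintro ⟨a, ha, haS⟩ ⟨b, hb, hbS⟩ hab hua
        have hab' : A a b ∨ A b a := hab
        rcases hab' with h1 | h1
        · exact h.down _ _ _ hua h1
        · by_contra hub
          exact hbS ⟨hb, Or.inr (h.up _ _ _ h1 hua hub)⟩
      rintro ⟨p⟩
      have key2 : ∀ a b : ↥(T \ S), ((graph h).induce (T \ S)).Walk a b → D u a.1 → D u b.1 := by
        intro a b p
        induction p with
        | nil => exact id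
        | cons hadj p ih => exact fun h1 => ih (key _ _ hadj h1)
      exact hz1 (key2 _ _ p huw)
  · left
    push Not at hcase
    -- at most one member of `T` has a proper descendant in `T`
    have huniq : ∃ L : Set V, (∀ x ∈ L, ∀ y ∈ L, ¬ D x y) ∧ ∃ u : V, ∀ x ∈ T, x = u ∨ x ∈ L := by
      by_cases hex : ∃ u ∈ T, ∃ w ∈ T, D u w
      · obtain ⟨u, hu, w, hw, huw⟩ := hex
        refine ⟨{x | x ∈ T ∧ x ≠ u}, ?_, u, ?_⟩
        · rintro x ⟨hx, hxu⟩ y ⟨hy, hyu⟩ hxy
          have h1 : D u x ∨ A x u := by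
            by_contra hcon
            push Not at hcon
            exact hcon.2 (hcase u hu w hw huw x hx hxu hcon.1)
          have h2 : D x u ∨ A u x := by
            by_contra hcon
            push Not at hcon
            exact hcon.2 (hcase x hx y hy hxy u hu hxu.symm hcon.1)
          rcases h1 with h1 | h1 <;> rcases h2 with h2 | h2
          · exact h.irr _ (h.trans _ _ _ h1 h2)
          · exact (h.inc _ _ h2).1 h1
          · exact (h.inc _ _ h1).1 h2
          · have := h.rank _ _ h1
            have := h.rank _ _ h2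
            omega
        · intro x hx
          by_cases hxu : x = u
          · exact Or.inl hxu
          · exact Or.inr ⟨hx, hxu⟩
      · push Not at hex
        obtain ⟨u, _⟩ := hTne
        exact ⟨T, hex, u, fun x hx => Or.inr hx⟩
    obtain ⟨L, hL, u, hu⟩ := huniq
    obtain ⟨c, hc⟩ := antichain_color h L hL
    refine ⟨SimpleGraph.Coloring.mk (fun x => if x.1 = u then (2 : Fin 3) else
      if c x.1 then 0 else 1) ?_⟩
    rintro ⟨x, hx⟩ ⟨y, hy⟩ hxy
    have hxy' : A x y ∨ A y x := hxy
    have hne : x ≠ y := by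
      rintro rfl
      rcases hxy' with h1 | h1 <;> exact absurd (h.rank _ _ h1) (lt_irrefl _)
    show (if x = u then (2 : Fin 3) else if c x then 0 else 1) ≠
      (if y = u then (2 : Fin 3) else if c y then 0 else 1)
    by_cases hxu : x = u
    · have hyu : y ≠ u := fun h1 => hne (hxu.trans h1.symm)
      rw [if_pos hxu, if_neg hyu]
      split_ifs <;> decide
    · by_cases hyu : y = u
      · rw [if_neg hxu, if_pos hyu]
        split_ifs <;> decide
      · rw [if_neg hxu, if_neg hyu]
        have hxL : x ∈ L := (hu x hx).resolve_left hxu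
        have hyL : y ∈ L := (hu y hy).resolve_left hyu
        have hcc : c x ≠ c y := by
          rcases hxy' with h1 | h1
          · exact hc x hxL y hyL h1
          · exact (hc y hyL x hxL h1).symm
        cases hcx : c x <;> cases hcy : c y <;> simp_all

/-- In every proper colouring some branch of the tree gets at least `k` colours. -/
def Rich (D A : V → V → Prop) (leaf : V → Prop) (k : ℕ) : Prop :=
  ∀ c : V → ℕ, (∀ v w, A v w → c v ≠ c w) →
    ∃ x, leaf x ∧ ∃ t : Finset ℕ, t.card = k ∧ ∀ i ∈ t, ∃ v, (v = x ∨ D v x) ∧ c v = i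

theorem exists_rich (k : ℕ) : ∃ (V : Type) (_ : Fintype V) (D A : V → V → Prop) (ρ : V → ℕ)
    (leaf : V → Prop), Ax D A ρ ∧ Rich D A leaf k := by
  classical
  induction k with
  | zero =>
    refine ⟨Unit, inferInstance, fun _ _ => False, fun _ _ => False, fun _ => 0, fun _ => True,
      ⟨by simp, by simp, by simp, by simp, by simp, by simp, by simp, by simp⟩, ?_⟩
    intro c _
    exact ⟨(), trivial, ∅, rfl, by simp⟩
  | succ k ih =>
    obtain ⟨V, hV, D, A, ρ, leaf, h, hrich⟩ := ih
    obtain ⟨N, hN⟩ := (Set.finite_range ρ).bddAbove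
    have hN' : ∀ v, ρ v ≤ N := fun v => hN (Set.mem_range_self v)
    -- `Br x v`: `v` is on the branch of `x`
    let Br : V → V → Prop := fun x v => v = x ∨ D v x
    have brChain : ∀ x a b, Br x a → Br x b → a = b ∨ D a b ∨ D b a := by
      rintro x a b (rfl | ha) (rfl | hb)
      · exact Or.inl rfl
      · exact Or.inr (Or.inr hb)
      · exact Or.inr (Or.inl ha)
      · exact h.chain _ _ _ ha hb
    have brUp : ∀ x a b, Br x b → D a b → Br x a := by
      rintro x a b (rfl | hb) hab
      · exact Or.inr hab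
      · exact Or.inr (h.trans _ _ _ hab hb)
    let W : Type := V ⊕ (V × V) ⊕ (V × V)
    let D' : W → W → Prop := fun a b => match a, b with
      | Sum.inl u, Sum.inl v => D u v
      | Sum.inl u, Sum.inr (Sum.inl (x, _)) => Br x u
      | Sum.inl u, Sum.inr (Sum.inr (x, _)) => Br x u
      | Sum.inr (Sum.inl (x, u)), Sum.inr (Sum.inl (y, v)) => x = y ∧ D u v
      | _, _ => False
    let A' : W → W → Prop := fun a b => match a, b with
      | Sum.inl u, Sum.inl v => A u v
      | Sum.inr (Sum.inl (x, u)), Sum.inr (Sum.inl (y, v)) => x = y ∧ A u v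
      | Sum.inr (Sum.inr (x, y)), Sum.inr (Sum.inl (x', v)) => x = x' ∧ Br y v
      | _, _ => False
    let ρ' : W → ℕ := fun a => match a with
      | Sum.inl u => ρ u
      | Sum.inr (Sum.inl (_, u)) => ρ u
      | Sum.inr (Sum.inr _) => N + 1
    let leaf' : W → Prop := fun a => match a with
      | Sum.inl _ => False
      | Sum.inr (Sum.inl (x, y)) => leaf x ∧ leaf y
      | Sum.inr (Sum.inr (x, y)) => leaf x ∧ leaf y
    refine ⟨W, inferInstance, D', A', ρ', leaf', ?_, ?_⟩
    · constructor
      · rintro (u | ⟨x, u⟩ | ⟨x, y⟩) h1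
        · exact h.irr _ h1
        · exact h.irr _ h1.2
        · exact h1
      · rintro (u | ⟨x, u⟩ | ⟨x, u⟩) (v | ⟨y, v⟩ | ⟨y, v⟩) (w | ⟨z, w⟩ | ⟨z, w⟩) h1 h2
        all_goals first
          | exact h1.elim
          | exact h2.elim
          | skip
        · exact h.trans _ _ _ h1 h2
        · exact brUp _ _ _ h2 h1
        · exact brUp _ _ _ h2 h1
        · obtain ⟨rfl, h2⟩ := h2
          exact h1
        · obtain ⟨rfl, h1⟩ := h1
          obtain ⟨rfl, h2⟩ := h2
          exact ⟨rfl, h.trans _ _ _ h1 h2⟩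
      · rintro (u | ⟨x, u⟩ | ⟨x, u⟩) (v | ⟨y, v⟩ | ⟨y, v⟩) (w | ⟨z, w⟩ | ⟨z, w⟩) h1 h2
        all_goals first
          | exact h1.elim
          | exact h2.elim
          | skip
        · rcases h.chain _ _ _ h1 h2 with rfl | h3 | h3
          · exact Or.inl rfl
          · exact Or.inr (Or.inl h3)
          · exact Or.inr (Or.inr h3)
        · rcases brChain _ _ _ h1 h2 with rfl | h3 | h3
          · exact Or.inl rfl
          · exact Or.inr (Or.inl h3)
          · exact Or.inr (Or.inr h3)
        · rcases brChain _ _ _ h1 h2 with rfl | h3 | h3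
          · exact Or.inl rfl
          · exact Or.inr (Or.inl h3)
          · exact Or.inr (Or.inr h3)
        · obtain ⟨rfl, h2⟩ := h2
          exact Or.inr (Or.inl h1)
        · obtain ⟨rfl, h1⟩ := h1
          exact Or.inr (Or.inr h2)
        · obtain ⟨rfl, h1⟩ := h1
          obtain ⟨rfl, h2⟩ := h2
          rcases h.chain _ _ _ h1 h2 with rfl | h3 | h3
          · exact Or.inl rfl
          · exact Or.inr (Or.inl ⟨rfl, h3⟩)
          · exact Or.inr (Or.inr ⟨rfl, h3⟩)
      · rintro (u | ⟨x, u⟩ | ⟨x, u⟩) (v | ⟨y, v⟩ | ⟨y, v⟩) h1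
        all_goals first
          | exact h1.elim
          | skip
        · exact h.inc _ _ h1
        · obtain ⟨rfl, h1⟩ := h1
          exact ⟨fun h2 => (h.inc _ _ h1).1 h2.2, fun h2 => (h.inc _ _ h1).2 h2.2⟩
        · exact ⟨fun h2 => h2, fun h2 => h2⟩
      · rintro (u | ⟨x, u⟩ | ⟨x, u⟩) (v | ⟨y, v⟩ | ⟨y, v⟩) (w | ⟨z, w⟩ | ⟨z, w⟩) h1 h2
        all_goals first
          | exact h1.elim
          | exact h2.elim
          | skip
        · rcases h.out _ _ _ h1 h2 with rfl | h3 | h3
          · exact Or.inl rfl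
          · exact Or.inr (Or.inl h3)
          · exact Or.inr (Or.inr h3)
        · obtain ⟨rfl, h1⟩ := h1
          obtain ⟨rfl, h2⟩ := h2
          rcases h.out _ _ _ h1 h2 with rfl | h3 | h3
          · exact Or.inl rfl
          · exact Or.inr (Or.inl ⟨rfl, h3⟩)
          · exact Or.inr (Or.inr ⟨rfl, h3⟩)
        · obtain ⟨rfl, h1⟩ := h1
          obtain ⟨rfl, h2⟩ := h2
          rcases brChain _ _ _ h1 h2 with rfl | h3 | h3
          · exact Or.inl rfl
          · exact Or.inr (Or.inl ⟨rfl, h3⟩)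
          · exact Or.inr (Or.inr ⟨rfl, h3⟩)
      · rintro (u | ⟨x, u⟩ | ⟨x, u⟩) (v | ⟨y, v⟩ | ⟨y, v⟩) (w | ⟨z, w⟩ | ⟨z, w⟩) h1 h2 h3
        all_goals first
          | exact h1.elim
          | exact h2.elim
          | skip
        · exact h.up _ _ _ h1 h2 h3
        · obtain ⟨rfl, h1⟩ := h1
          exact absurd h2 h3
        · obtain ⟨rfl, h1⟩ := h1
          exact absurd h2 h3
        · obtain ⟨rfl, h1⟩ := h1
          obtain ⟨rfl, h2⟩ := h2
          exact ⟨rfl, h.up _ _ _ h1 h2 (fun h4 => h3 ⟨rfl, h4⟩)⟩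
        · obtain ⟨rfl, h1⟩ := h1
          obtain ⟨rfl, h2⟩ := h2
          exact ⟨rfl, brUp _ _ _ h1 h2⟩
      · rintro (u | ⟨x, u⟩ | ⟨x, u⟩) (v | ⟨y, v⟩ | ⟨y, v⟩) (w | ⟨z, w⟩ | ⟨z, w⟩) h1 h2
        all_goals first
          | exact h1.elim
          | exact h2.elim
          | skip
        · exact h.down _ _ _ h1 h2
        · obtain ⟨rfl, h2⟩ := h2
          exact h1
        · obtain ⟨rfl, h2⟩ := h2
          exact h1
        · obtain ⟨rfl, h1⟩ := h1
          obtain ⟨rfl, h2⟩ := h2
          exact ⟨rfl, h.down _ _ _ h1 h2⟩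
      · rintro (v | ⟨y, v⟩ | ⟨y, v⟩) (w | ⟨z, w⟩ | ⟨z, w⟩) h1
        all_goals first
          | exact h1.elim
          | skip
        · exact h.rank _ _ h1
        · exact h.rank _ _ h1.2
        · exact Nat.lt_succ_of_le (hN' _)
    · intro c hc
      obtain ⟨x, hx, t, ht, hbr⟩ := hrich (fun v => c (Sum.inl v)) (fun v w hvw => hc _ _ hvw)
      obtain ⟨y, hy, t', ht', hbr'⟩ := hrich (fun v => c (Sum.inr (Sum.inl (x, v))))
        (fun v w hvw => hc _ _ ⟨rfl, hvw⟩)
      by_cases hsub : t' ⊆ t
      · -- the colour sets agree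
        have heq : t' = t := Finset.eq_of_subset_of_card_le hsub (by rw [ht, ht'])
        subst heq
        let j := c (Sum.inr (Sum.inr (x, y)))
        have hj : j ∉ t' := by
          intro hj
          obtain ⟨v, hv, hvj⟩ := hbr' j hj
          exact hc (Sum.inr (Sum.inr (x, y))) (Sum.inr (Sum.inl (x, v))) ⟨rfl, hv⟩ hvj.symm
        refine ⟨Sum.inr (Sum.inr (x, y)), ⟨hx, hy⟩, insert j t', ?_, ?_⟩
        · rw [Finset.card_insert_of_notMem hj, ht']
        · intro i hi
          rw [Finset.mem_insert] at hi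
          rcases hi with rfl | hi
          · exact ⟨_, Or.inl rfl, rfl⟩
          · obtain ⟨v, hv, hvi⟩ := hbr i hi
            exact ⟨Sum.inl v, Or.inr hv, hvi⟩
      · obtain ⟨j, hj, hjt⟩ := Finset.not_subset.1 hsub
        refine ⟨Sum.inr (Sum.inl (x, y)), ⟨hx, hy⟩, insert j t, ?_, ?_⟩
        · rw [Finset.card_insert_of_notMem hjt, ht]
        · intro i hi
          rw [Finset.mem_insert] at hi
          rcases hi with rfl | hi
          · obtain ⟨v, hv, hvi⟩ := hbr' i hj
            refine ⟨Sum.inr (Sum.inl (x, v)), ?_, hvi⟩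
            rcases hv with rfl | hv
            · exact Or.inl rfl
            · exact Or.inr ⟨rfl, hv⟩
          · obtain ⟨v, hv, hvi⟩ := hbr i hi
            exact ⟨Sum.inl v, Or.inr hv, hvi⟩

end Pool.Agent.R50.Burling
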