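import Mathlib
import Pool.Agent.W179.Erdos

/-!
# Graphs of large girth with small independence ratio
-/

set_option autoImplicit false

namespace Pool.Agent.R50.ErdosIndep

open Finset Pool.Agent.W179.Erdos

/-- Erdős: for all `k`, `g` there is a finite graph without cycles of length at most `g` in which
every independent set has less than `1 / k` of the vertices. -/
theorem erdos_indep (k g : ℕ) (hk : 1 ≤ k) : ∃ (V : Type) (_ : Fintype V) (H : SimpleGraph V),
    (∀ S : Finset V, H.IsIndepSet (S : Set V) → k * S.card < Fintype.card V) ∧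
      ∀ l f, FCyc H l f → g < l := by
  classical
  obtain ⟨n, s, M, _, f, hs, hn, hX, hI⟩ := main_count k (g + 1) hk
  let G : SimpleGraph (Fin n) :=
    { Adj := fun u v => u ≠ v ∧ f s(u, v) = 0
      symm := ⟨fun u v h => ⟨h.1.symm, by rw [Sym2.eq_swap]; exact h.2⟩⟩
      loopless := ⟨fun u h => h.1 rfl⟩ }
  let B : Finset (Fin n) := (X (g + 1) f).image fun p => p.2 0
  have hB : B.card < k * s := lt_of_le_of_lt card_image_le hX
  let U : Finset (Fin n) := Bᶜ
  have hU : k * s ≤ U.card := by
    show k * s ≤ (Bᶜ).card
    rw [card_compl, Fintype.card_fin]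
    have : n = k * s + k * s := by rw [hn]; ring
    omega
  refine ⟨{v // v ∈ U}, inferInstance, G.induce (fun v => v ∈ U), ?_, ?_⟩
  · intro S hS
    rw [Fintype.card_coe]
    by_contra hcon
    push Not at hcon
    have h1 : s ≤ S.card := by
      have h2 : k * s ≤ k * S.card := hU.trans hcon
      exact Nat.le_of_mul_le_mul_left h2 hk
    obtain ⟨T, hT1, hT2⟩ := exists_subset_card_eq h1
    let S' : Finset (Fin n) := T.map (Function.Embedding.subtype _)
    have hS' : S'.card = s := by rw [card_map, hT2]
    obtain ⟨e, he, h0⟩ := hI S' hS'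
    obtain ⟨a, ha, b, hb, hab, rfl⟩ := pairs_sub S' e he
    obtain ⟨a', ha', rfl⟩ := mem_map.mp ha
    obtain ⟨b', hb', rfl⟩ := mem_map.mp hb
    have hadj : (G.induce (fun v => v ∈ U)).Adj a' b' := ⟨hab, h0⟩
    exact hS (hT1 ha') (hT1 hb') (fun h3 => hab (by rw [h3])) hadj
  · intro l φ h
    by_contra hl
    push Not at hl
    have h3 := h.three
    obtain ⟨m, rfl⟩ : ∃ m, l = m + 3 := ⟨l - 3, by omega⟩
    have hm : m < g + 1 := by omega
    let v : Fin (m + 3) → Fin n := fun t => (φ t.val).val
    have hv : Function.Injective v := by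
      intro a b hab
      have := h.inj a.val a.isLt b.val b.isLt (Subtype.ext hab)
      exact Fin.ext this
    have hz : ∀ e ∈ cedges v, f e ∈ ({0} : Finset (Fin M)) := by
      intro e he
      unfold cedges at he
      obtain ⟨t, -, rfl⟩ := mem_image.mp he
      rw [mem_singleton]
      by_cases ht : t.val + 1 < m + 3
      · have h5 : (t + 1 : Fin (m + 3)).val = t.val + 1 := by
          rw [Fin.val_add, Fin.val_one, Nat.mod_eq_of_lt ht]
        have h4 := (h.adj t.val ht)
        have h6 : v (t + 1) = (φ (t.val + 1)).val := by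
          show (φ (t + 1 : Fin (m + 3)).val).val = _
          rw [h5]
        rw [h6]
        exact h4.2
      · have h7 : t.val = m + 3 - 1 := by
          have := t.isLt
          omega
        have h5 : (t + 1 : Fin (m + 3)).val = 0 := by
          rw [Fin.val_add, Fin.val_one, h7]
          have : m + 3 - 1 + 1 = m + 3 := by omega
          rw [this, Nat.mod_self]
        have h4 := h.close
        have h6 : v (t + 1) = (φ 0).val := by
          show (φ (t + 1 : Fin (m + 3)).val).val = _
          rw [h5]
        have h8 : v t = (φ (m + 3 - 1)).val := by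
          show (φ t.val).val = _
          rw [h7]
        rw [h6, h8]
        exact h4.2
    have hmem : (⟨⟨m, hm⟩, v⟩ : Σ m : Fin (g + 1), (Fin (m.val + 3) → Fin n)) ∈ X (g + 1) f := by
      unfold X
      rw [mem_filter]
      exact ⟨mem_univ _, hv, hz⟩
    have h9 : v 0 ∈ B := mem_image.mpr ⟨_, hmem, rfl⟩
    have h10 : (φ 0).val ∈ U := (φ 0).property
    exact (mem_compl.mp h10) h9

/-- No cycle of length three: triangle-free. -/
theorem triangleFree_of_girth {V : Type*} {H : SimpleGraph V} {g : ℕ} (hg : 3 ≤ g)
    (h : ∀ l f, FCyc H l f → g < l) : H.CliqueFree 3 := by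
  classical
  intro s hs
  rw [SimpleGraph.is3Clique_iff] at hs
  obtain ⟨a, b, c, hab, hac, hbc, -⟩ := hs
  let f : ℕ → V := fun i => if i = 0 then a else if i = 1 then b else c
  have h0 : f 0 = a := rfl
  have h1 : f 1 = b := rfl
  have h2 : f 2 = c := rfl
  have key : FCyc H 3 f := by
    refine ⟨le_rfl, ?_, ?_, ?_⟩
    · intro i hi j hj hij
      have hab' := hab.ne
      have hac' := hac.ne
      have hbc' := hbc.ne
      interval_cases i <;> interval_cases j <;> simp_all [f]
    · intro i hi
      have : i = 0 ∨ i = 1 := by omega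
      rcases this with rfl | rfl
      · exact hab
      · exact hbc
    · exact hac.symm
  have := h 3 f key
  omega

end Pool.Agent.R50.ErdosIndep
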