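import Mathlib

/-!
# `K₅`-free graphs of prescribed cochromatic number and chromatic gap three
-/

set_option autoImplicit false

namespace Pool.Agent.R50.GapThree

open Finset

/-- The complement of the `(3,5)`-Ramsey graph minus a vertex, on `0, …, 11`. -/
def UAdj (a b : Fin 12) : Prop :=
  a ≠ b ∧ a.val + 1 ≠ b.val ∧ b.val + 1 ≠ a.val ∧ a.val + 5 ≠ b.val ∧ b.val + 5 ≠ a.val ∧
    a.val + 8 ≠ b.val ∧ b.val + 8 ≠ a.val

instance : DecidableRel UAdj := fun a b => by unfold UAdj; infer_instance

theorem uAdj_symm {a b : Fin 12} (h : UAdj a b) : UAdj b a :=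
  ⟨h.1.symm, h.2.2.1, h.2.1, h.2.2.2.2.1, h.2.2.2.1, h.2.2.2.2.2.2, h.2.2.2.2.2.1⟩

theorem u_five : ∀ a b, UAdj a b → ∀ c, UAdj a c → UAdj b c → ∀ d, UAdj a d → UAdj b d →
    UAdj c d → ∀ e, UAdj a e → UAdj b e → UAdj c e → ¬ UAdj d e := by decide +kernel

theorem u_alpha : ∀ a b c, a ≠ b → a ≠ c → b ≠ c → UAdj a b ∨ UAdj a c ∨ UAdj b c := by
  decide +kernel

/-- `T` spans no `K₄`. -/
def K4F (T : Finset (Fin 12)) : Prop :=
  ∀ a ∈ T, ∀ b ∈ T, UAdj a b → ∀ c ∈ T, UAdj a c → UAdj b c → ∀ d ∈ T, UAdj a d → UAdj b d →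
    ¬ UAdj c d

/-- `T` spans no triangle. -/
def K3F (T : Finset (Fin 12)) : Prop :=
  ∀ a ∈ T, ∀ b ∈ T, UAdj a b → ∀ c ∈ T, UAdj a c → ¬ UAdj b c

theorem K3F.mono {S T : Finset (Fin 12)} (h : S ⊆ T) (hT : K3F T) : K3F S :=
  fun a ha b hb hab c hc hac => hT a (h ha) b (h hb) hab c (h hc) hac

theorem K3F.k4F {T : Finset (Fin 12)} (hT : K3F T) : K4F T :=
  fun a ha b hb hab c hc hac hbc _ _ _ _ => absurd hbc (hT a ha b hb hab c hc hac)

theorem uAdj_irrefl (a : Fin 12) : ¬ UAdj a a := fun h => h.1 rfl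

theorem k3F_of_card {T : Finset (Fin 12)} (h : T.card ≤ 2) : K3F T := by
  intro a ha b hb hab c hc hac hbc
  have h1 : ({a, b, c} : Finset (Fin 12)) ⊆ T := by
    intro x hx
    simp only [mem_insert, mem_singleton] at hx
    rcases hx with rfl | rfl | rfl <;> assumption
  have h2 : ({a, b, c} : Finset (Fin 12)).card = 3 := by
    rw [card_eq_three]
    exact ⟨a, b, c, hab.1, hac.1, hbc.1, rfl⟩
  have := card_le_card h1
  omega

theorem k4F_of_card {T : Finset (Fin 12)} (h : T.card ≤ 3) : K4F T := by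
  intro a ha b hb hab c hc hac hbc d hd had hbd hcd
  have h1 : ({a, b, c, d} : Finset (Fin 12)) ⊆ T := by
    intro x hx
    simp only [mem_insert, mem_singleton] at hx
    rcases hx with rfl | rfl | rfl | rfl <;> assumption
  have h2 : ({a, b, c, d} : Finset (Fin 12)).card = 4 := by
    rw [card_insert_of_notMem, card_eq_three.2 ⟨b, c, d, hbc.1, hbd.1, hcd.1, rfl⟩]
    simp only [mem_insert, mem_singleton, not_or]
    exact ⟨hab.1, hac.1, had.1⟩
  have := card_le_card h1
  omega

/-- the complement of a `4`-clique that meets all `4`-cliques -/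
def TT : Finset (Fin 12) := {1, 2, 3, 5, 6, 8, 9, 10}

theorem TT_k4F : K4F TT := by unfold K4F; decide +kernel

theorem TT_compl : ∀ a b, a ∉ TT → b ∉ TT → a ≠ b → UAdj a b := by decide +kernel

/-! ### The shift graph -/

/-- The shift graph has large chromatic number. -/
theorem shift (K : Type) [Finite K] : ∃ N : ℕ, ∀ col : Fin N → Fin N → K,
    ∃ i j k : Fin N, i < j ∧ j < k ∧ col i j = col j k := by
  classical
  have := Fintype.ofFinite K
  refine ⟨Fintype.card (Finset K) + 1, ?_⟩
  intro col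
  let A : Fin (Fintype.card (Finset K) + 1) → Finset K := fun i =>
    (univ.filter fun k => i < k).image (col i)
  obtain ⟨i, j, hij, hA⟩ : ∃ i j, i ≠ j ∧ A i = A j :=
    Fintype.exists_ne_map_eq_of_card_lt A (by simp)
  have key : ∀ i j, i < j → A i = A j →
      ∃ i j k : Fin (Fintype.card (Finset K) + 1), i < j ∧ j < k ∧ col i j = col j k := by
    intro i j hij hA
    have h1 : col i j ∈ A i := mem_image.2 ⟨j, by simpa using hij, rfl⟩
    rw [hA] at h1
    obtain ⟨k, hk, hkj⟩ := mem_image.1 h1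
    exact ⟨i, j, k, hij, by simpa using hk, hkj.symm⟩
  rcases lt_or_gt_of_ne hij with h | h
  · exact key i j h hA
  · exact key j i h hA.symm

/-! ### The graph -/

/-- the vertices -/
abbrev Vx (b N : ℕ) : Type := Fin 12 ⊕ (Fin b × Finset (Fin 12)) × Fin N × Fin N

/-- adjacency of types -/
def TAdj {b : ℕ} (x y : Fin b × Finset (Fin 12)) : Prop := x.1 ≠ y.1 ∧ K3F (x.2 ∩ y.2)

theorem tAdj_symm {b : ℕ} {x y : Fin b × Finset (Fin 12)} (h : TAdj x y) : TAdj y x :=
  ⟨h.1.symm, by rw [inter_comm]; exact h.2⟩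

/-- adjacency in the shift graph -/
def SAdj {N : ℕ} (p q : Fin N × Fin N) : Prop :=
  (p.1 < p.2 ∧ p.2 = q.1 ∧ q.1 < q.2) ∨ (q.1 < q.2 ∧ q.2 = p.1 ∧ p.1 < p.2)

theorem sAdj_symm {N : ℕ} {p q : Fin N × Fin N} (h : SAdj p q) : SAdj q p := Or.symm h

theorem sAdj_tri {N : ℕ} {p q r : Fin N × Fin N} (h1 : SAdj p q) (h2 : SAdj p r)
    (h3 : SAdj q r) : False := by
  obtain ⟨p1, p2⟩ := p
  obtain ⟨q1, q2⟩ := q
  obtain ⟨r1, r2⟩ := r
  simp only [SAdj] at h1 h2 h3
  omega

/-- The graph. -/
def GG (b N : ℕ) : SimpleGraph (Vx b N) where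
  Adj v w := match v, w with
    | Sum.inl a, Sum.inl c => UAdj a c
    | Sum.inl a, Sum.inr (x, _) => a ∈ x.2 ∧ K4F x.2
    | Sum.inr (x, _), Sum.inl a => a ∈ x.2 ∧ K4F x.2
    | Sum.inr (x, p), Sum.inr (y, q) => TAdj x y ∧ SAdj p q
  symm := ⟨fun v w h => by
    rcases v with a | ⟨x, p⟩ <;> rcases w with c | ⟨y, q⟩
    · exact uAdj_symm h
    · exact h
    · exact h
    · exact ⟨tAdj_symm h.1, sAdj_symm h.2⟩⟩
  loopless := ⟨fun v h => by
    rcases v with a | ⟨x, p⟩
    · exact h.1 rfl
    · exact h.1.1 rfl⟩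

theorem cliqueFree (b N : ℕ) : (GG b N).CliqueFree 5 := by
  classical
  intro s hs
  have hadj : ∀ v ∈ s, ∀ w ∈ s, v ≠ w → (GG b N).Adj v w := fun v hv w hw hne =>
    hs.isClique hv hw hne
  let sl := s.filter fun v => v.isLeft
  let sr := s.filter fun v => ¬ v.isLeft
  have hcard : sl.card + sr.card = 5 := by
    rw [card_filter_add_card_filter_not, hs.card_eq]
  have hl : ∀ v, v ∈ sl → ∃ a, v = Sum.inl a ∧ v ∈ s := by
    intro v hv
    obtain ⟨h1, h2⟩ := mem_filter.1 hv
    rcases v with a | x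
    · exact ⟨a, rfl, h1⟩
    · exact absurd h2 (by simp)
  have hr : ∀ v, v ∈ sr → ∃ x, v = Sum.inr x ∧ v ∈ s := by
    intro v hv
    obtain ⟨h1, h2⟩ := mem_filter.1 hv
    rcases v with a | x
    · exact absurd h2 (by simp)
    · exact ⟨x, rfl, h1⟩
  rcases Nat.lt_or_ge 2 sr.card with h3 | h3
  · obtain ⟨u, v, w, hu, hv, hw, huv, huw, hvw⟩ := two_lt_card_iff.1 h3
    obtain ⟨x, rfl, hx⟩ := hr _ hu
    obtain ⟨y, rfl, hy⟩ := hr _ hv
    obtain ⟨z, rfl, hz⟩ := hr _ hw
    exact sAdj_tri (hadj _ hx _ hy huv).2 (hadj _ hx _ hz huw).2 (hadj _ hy _ hz hvw).2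
  · rcases Nat.lt_or_ge 1 sr.card with h2 | h2
    · -- two vertices on the right, three on the left
      obtain ⟨u, hu, v, hv, huv⟩ := one_lt_card.1 h2
      obtain ⟨x, rfl, hx⟩ := hr _ hu
      obtain ⟨y, rfl, hy⟩ := hr _ hv
      have h4 : 2 < sl.card := by omega
      obtain ⟨c, d, e, hc, hd, he, hcd, hce, hde⟩ := two_lt_card_iff.1 h4
      obtain ⟨c, rfl, hc'⟩ := hl _ hc
      obtain ⟨d, rfl, hd'⟩ := hl _ hd
      obtain ⟨e, rfl, he'⟩ := hl _ he
      have m : ∀ a : Fin 12, Sum.inl a ∈ s → a ∈ x.1.2 ∩ y.1.2 := fun a ha =>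
        mem_inter.2 ⟨(hadj _ ha _ hx (by simp)).1, (hadj _ ha _ hy (by simp)).1⟩
      exact (hadj _ hx _ hy huv).1.2 c (m c hc') d (m d hd') (hadj _ hc' _ hd' hcd) e (m e he')
        (hadj _ hc' _ he' hce) (hadj _ hd' _ he' hde)
    · rcases Nat.lt_or_ge 0 sr.card with h1 | h1
      · -- one vertex on the right, four on the left
        obtain ⟨u, hu⟩ := card_pos.1 h1
        obtain ⟨x, rfl, hx⟩ := hr _ hu
        have h4 : sl.card = 4 := by omega
        obtain ⟨a, c, d, e, hac, had, hae, hcd, hce, hde, heq⟩ := card_eq_four.1 h4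
        have hm : ∀ v, v ∈ ({a, c, d, e} : Finset (Vx b N)) → v ∈ sl := by
          intro v hv
          rw [heq]
          exact hv
        obtain ⟨a, rfl, ha'⟩ := hl _ (hm a (by simp))
        obtain ⟨c, rfl, hc'⟩ := hl _ (hm c (by simp))
        obtain ⟨d, rfl, hd'⟩ := hl _ (hm d (by simp))
        obtain ⟨e, rfl, he'⟩ := hl _ (hm e (by simp))
        have m : ∀ a : Fin 12, Sum.inl a ∈ s → a ∈ x.1.2 := fun a ha =>
          (hadj _ ha _ hx (by simp)).1
        exact (hadj _ ha' _ hx (by simp)).2 a (m a ha') c (m c hc') (hadj _ ha' _ hc' hac) d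
          (m d hd') (hadj _ ha' _ hd' had) (hadj _ hc' _ hd' hcd) e (m e he')
          (hadj _ ha' _ he' hae) (hadj _ hc' _ he' hce) (hadj _ hd' _ he' hde)
      · have h4 : sl.card = 5 := by omega
        obtain ⟨T, hT1, hT2⟩ := exists_subset_card_eq (show 4 ≤ sl.card by omega)
        obtain ⟨a, c, d, e, hac, had, hae, hcd, hce, hde, heq⟩ := card_eq_four.1 hT2
        obtain ⟨f, hf, hfT⟩ : ∃ f ∈ sl, f ∉ T := by
          by_contra hcon
          push Not at hcon
          have := card_le_card (show sl ⊆ T from hcon)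
          omega
        have hm : ∀ v, v ∈ ({a, c, d, e} : Finset (Vx b N)) → v ∈ sl := by
          intro v hv
          rw [← heq] at hv
          exact hT1 hv
        have hn : ∀ v, v ∈ ({a, c, d, e} : Finset (Vx b N)) → v ≠ f := by
          intro v hv hvf
          rw [← heq] at hv
          exact hfT (hvf ▸ hv)
        obtain ⟨f, rfl, hf'⟩ := hl _ hf
        have na := hn a (by simp)
        have nc := hn c (by simp)
        have nd := hn d (by simp)
        have ne := hn e (by simp)
        obtain ⟨a, rfl, ha'⟩ := hl _ (hm a (by simp))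
        obtain ⟨c, rfl, hc'⟩ := hl _ (hm c (by simp))
        obtain ⟨d, rfl, hd'⟩ := hl _ (hm d (by simp))
        obtain ⟨e, rfl, he'⟩ := hl _ (hm e (by simp))
        exact u_five a c (hadj _ ha' _ hc' hac) d (hadj _ ha' _ hd' had) (hadj _ hc' _ hd' hcd) e
          (hadj _ ha' _ he' hae) (hadj _ hc' _ he' hce) (hadj _ hd' _ he' hde) f
          (hadj _ ha' _ hf' na) (hadj _ hc' _ hf' nc) (hadj _ hd' _ hf' nd) (hadj _ he' _ hf' ne)

/-! ### The core -/

/-- There is no assignment of colours to the types. -/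
theorem core {b : ℕ} {P : Type} [Fintype P] [DecidableEq P] (hP : Fintype.card P ≤ b + 5)
    (φ : Fin 12 → P) (hφ : ∀ u v, UAdj u v → φ u ≠ φ v)
    (f : Fin b → Finset (Fin 12) → P)
    (h1 : ∀ s s' T T', s ≠ s' → K3F (T ∩ T') → f s T ≠ f s' T')
    (h2 : ∀ s T, K4F T → ∀ u ∈ T, φ u ≠ f s T) : False := by
  classical
  -- the owned colours
  let O : Fin b → Finset P := fun s => (univ.filter fun T => K3F T).image (f s)
  have memO : ∀ s p, p ∈ O s ↔ ∃ T, K3F T ∧ f s T = p := by
    intro s p
    simp [O]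
  have O1 : ∀ s s', s ≠ s' → Disjoint (O s) (O s') := by
    intro s s' hss
    rw [disjoint_left]
    intro p hp hp'
    obtain ⟨T, hT, e1⟩ := (memO _ _).1 hp
    obtain ⟨T', hT', e2⟩ := (memO _ _).1 hp'
    exact h1 s s' T T' hss (hT.mono inter_subset_left) (e1.trans e2.symm)
  have O3 : ∀ s T, K3F T → ∃ p ∈ O s, ∀ u ∈ T, φ u ≠ p := by
    intro s T hT
    exact ⟨f s T, (memO _ _).2 ⟨T, hT, rfl⟩, h2 s T hT.k4F⟩
  have O2 : ∀ s, 1 ≤ (O s).card := by
    intro s
    obtain ⟨p, hp, -⟩ := O3 s ∅ (k3F_of_card (by simp))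
    exact card_pos.2 ⟨p, hp⟩
  have O4 : ∀ s s' T, s ≠ s' → f s T ∉ O s' := by
    intro s s' T hss hmem
    obtain ⟨T', hT', e⟩ := (memO _ _).1 hmem
    exact h1 s s' T T' hss (hT'.mono inter_subset_right) e.symm
  let J : Finset P := univ.image φ
  have memJ : ∀ p, p ∈ J ↔ ∃ u, φ u = p := by
    intro p
    simp [J]
  -- representatives of the colours in `J`
  have rep : ∀ p, ∃ u, p ∈ J → φ u = p := by
    intro p
    by_cases hp : p ∈ J
    · obtain ⟨u, hu⟩ := (memJ p).1 hp
      exact ⟨u, fun _ => hu⟩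
    · exact ⟨0, fun h => absurd h hp⟩
  choose r hr using rep
  -- the classes have at most two elements
  have hclass : ∀ p, (univ.filter fun u => φ u = p).card ≤ 2 := by
    intro p
    by_contra hcon
    push Not at hcon
    obtain ⟨x, y, z, hx, hy, hz, hxy, hxz, hyz⟩ := two_lt_card_iff.1 hcon
    rw [mem_filter] at hx hy hz
    rcases u_alpha x y z hxy hxz hyz with h | h | h
    · exact hφ _ _ h (hx.2.trans hy.2.symm)
    · exact hφ _ _ h (hx.2.trans hz.2.symm)
    · exact hφ _ _ h (hy.2.trans hz.2.symm)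
  have hsum : ∑ p ∈ J, (univ.filter fun u => φ u = p).card = 12 := by
    have := card_eq_sum_card_fiberwise (f := φ) (s := (univ : Finset (Fin 12))) (t := J)
      (fun u _ => (memJ _).2 ⟨u, rfl⟩)
    rw [← this]
    simp
  have hJ6 : 6 ≤ J.card := by
    have h3 : ∑ p ∈ J, (univ.filter fun u => φ u = p).card ≤ ∑ p ∈ J, 2 :=
      sum_le_sum fun p _ => hclass p
    rw [hsum, sum_const, smul_eq_mul] at h3
    omega
  let D : Finset (Fin b) := univ.filter fun s => O s ⊆ J
  have O5 : ∀ s ∈ D, 3 ≤ (O s).card := by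
    intro s hs
    by_contra hcon
    push Not at hcon
    have hsJ : O s ⊆ J := (mem_filter.1 hs).2
    have hT : K3F ((O s).image r) := k3F_of_card (card_image_le.trans (by omega))
    obtain ⟨p, hp, hp2⟩ := O3 s _ hT
    exact hp2 (r p) (mem_image_of_mem _ hp) (hr p (hsJ hp))
  -- counting
  let N : Finset P := univ \ univ.biUnion O
  have hPN : ∑ s, (O s).card + N.card = Fintype.card P := by
    have e1 : (univ.biUnion O).card = ∑ s, (O s).card :=
      card_biUnion fun s _ s' _ hss => O1 s s' hss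
    rw [← e1]
    have := card_sdiff_add_card_inter (univ : Finset P) (univ.biUnion O)
    rw [univ_inter, card_univ] at this
    show (univ.biUnion O).card + (univ \ univ.biUnion O).card = _
    omega
  have hcount : 2 * D.card + b + N.card ≤ b + 5 ∧
      ∀ s ∈ D, (O s).card + 2 * (D.card - 1) + (b - 1) + N.card ≤ b + 5 := by
    have hDb : D.card ≤ b := (card_le_univ D).trans (by simp)
    have e1 : ∀ s : Fin b, (if s ∈ D then 3 else 1) ≤ (O s).card := by
      intro s
      split_ifs with h
      · exact O5 s h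
      · exact O2 s
    have e3 : ∀ A : Finset (Fin b), ∑ s ∈ A, (if s ∈ D then 3 else 1) = 2 * (A ∩ D).card + A.card := by
      intro A
      rw [sum_ite, sum_const, sum_const, smul_eq_mul, smul_eq_mul, filter_mem_eq_inter]
      have e4 := card_filter_add_card_filter_not (s := A) (fun s => s ∈ D)
      rw [filter_mem_eq_inter] at e4
      omega
    constructor
    · have e2 : ∑ s, (if s ∈ D then 3 else 1) ≤ ∑ s, (O s).card := sum_le_sum fun s _ => e1 s
      rw [e3, univ_inter, card_univ, Fintype.card_fin] at e2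
      omega
    · intro s hs
      have e2 : ∑ s ∈ univ.erase s, (if s ∈ D then 3 else 1) ≤ ∑ s ∈ univ.erase s, (O s).card :=
        sum_le_sum fun s _ => e1 s
      have e5 : (O s).card + ∑ s ∈ univ.erase s, (O s).card = ∑ s, (O s).card :=
        add_sum_erase univ (fun s => (O s).card) (mem_univ s)
      have e6 : (univ.erase s ∩ D).card = D.card - 1 := by
        have : univ.erase s ∩ D = D.erase s := by
          ext x
          simp only [mem_inter, mem_erase, mem_univ, and_true]
        rw [this, card_erase_of_mem hs]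
      have e7 : (univ.erase s : Finset (Fin b)).card = b - 1 := by
        rw [card_erase_of_mem (mem_univ s), card_univ, Fintype.card_fin]
      rw [e3, e6, e7] at e2
      omega
  -- the free colours
  have hfree : b - D.card ≤ (univ \ J : Finset P).card - ((univ \ J) ∩ N).card ∧
      ((univ \ J) ∩ N).card ≤ (univ \ J : Finset P).card := by
    have hlt : ((univ \ J) ∩ N).card ≤ (univ \ J : Finset P).card := card_le_card inter_subset_left
    refine ⟨?_, hlt⟩
    -- every index outside `D` owns a free colour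
    have e1 : ∀ s : Fin b, ∃ p, s ∉ D → p ∈ O s ∧ p ∉ J := by
      intro s
      by_cases hs : s ∈ D
      · obtain ⟨p, hp⟩ := card_pos.1 (O2 s)
        exact ⟨p, fun h => absurd hs h⟩
      · have : ¬ O s ⊆ J := fun h => hs (mem_filter.2 ⟨mem_univ _, h⟩)
        obtain ⟨p, hp, hpJ⟩ := not_subset.1 this
        exact ⟨p, fun _ => ⟨hp, hpJ⟩⟩
    choose g hg using e1
    have e2 : (univ \ D).card ≤ ((univ \ J) \ N).card := by
      apply card_le_card_of_injOn g
      · intro s hs
        have hs' : s ∉ D := by simpa using hs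
        obtain ⟨h3, h4⟩ := hg s hs'
        simp only [coe_sdiff, coe_univ, Set.mem_sdiff, Set.mem_univ, true_and, mem_coe]
        refine ⟨h4, ?_⟩
        simp only [N, mem_sdiff, mem_univ, true_and, mem_biUnion, not_exists]
        exact fun h => h s h3
      · intro s hs s' hs' hss
        have hs1 : s ∉ D := by simpa using hs
        have hs2 : s' ∉ D := by simpa using hs'
        by_contra hne
        have h3 := (hg s hs1).1
        have h4 := (hg s' hs2).1
        rw [← hss] at h4
        exact disjoint_left.1 (O1 s s' hne) h3 h4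
    have e3 : (univ \ D).card = b - D.card := by
      rw [card_sdiff_of_subset (subset_univ _), card_univ, Fintype.card_fin]
    have e4 : ((univ \ J) \ N).card + ((univ \ J) ∩ N).card = (univ \ J : Finset P).card :=
      card_sdiff_add_card_inter _ _
    omega
  have hJc : (univ \ J : Finset P).card = Fintype.card P - J.card := by
    rw [card_sdiff_of_subset (subset_univ _), card_univ]
  have hJle : J.card ≤ Fintype.card P := card_le_univ J
  have hDb : D.card ≤ b := (card_le_univ D).trans (by simp)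
  -- `f s T` is in `N` if `T` sees all colours of `O s`
  have inN : ∀ s T, K4F T → (∀ p ∈ O s, ∃ u ∈ T, φ u = p) → f s T ∈ N := by
    intro s T hT hsee
    simp only [N, mem_sdiff, mem_univ, true_and, mem_biUnion, not_exists]
    intro s' hs'
    by_cases hss : s = s'
    · subst hss
      obtain ⟨u, hu, hup⟩ := hsee _ hs'
      exact h2 s T hT u hu hup
    · exact O4 s s' T hss hs'
  have hD2 : D.card ≤ 2 := by omega
  obtain hD | hD | hD : D.card = 0 ∨ D.card = 1 ∨ D.card = 2 := by omega
  · omega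
  · -- one index without free colour
    have hJ : J.card = 6 := by omega
    obtain ⟨s, hs⟩ := card_pos.1 (show 0 < D.card by omega)
    have hN : ((univ \ J) ∩ N).card = 0 := by omega
    -- all classes have two elements
    have htwo : ∀ p ∈ J, (univ.filter fun u => φ u = p).card = 2 := by
      intro p hp
      by_contra hne
      have hlt : (univ.filter fun u => φ u = p).card < 2 := lt_of_le_of_ne (hclass p) hne
      have h3 : ∑ p ∈ J, (univ.filter fun u => φ u = p).card < ∑ p ∈ J, 2 :=
        sum_lt_sum (fun p _ => hclass p) ⟨p, hp, hlt⟩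
      rw [hsum, sum_const, smul_eq_mul, hJ] at h3
      omega
    have hsee : ∀ p ∈ J, ∃ u ∈ TT, φ u = p := by
      intro p hp
      obtain ⟨x, hx, y, hy, hxy⟩ := one_lt_card.1 (show 1 < (univ.filter fun u => φ u = p).card by
        rw [htwo p hp]; norm_num)
      rw [mem_filter] at hx hy
      by_contra hcon
      push Not at hcon
      have hx' : x ∉ TT := fun h => hcon x h hx.2
      have hy' : y ∉ TT := fun h => hcon y h hy.2
      exact hφ _ _ (TT_compl x y hx' hy' hxy) (hx.2.trans hy.2.symm)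
    have hm := inN s TT TT_k4F (fun p hp => hsee p ((mem_filter.1 hs).2 hp))
    have hm2 : f s TT ∉ J := by
      intro hmem
      obtain ⟨u, hu, hup⟩ := hsee _ hmem
      exact h2 s TT TT_k4F u hu hup
    have : f s TT ∈ (univ \ J) ∩ N := mem_inter.2 ⟨mem_sdiff.2 ⟨mem_univ _, hm2⟩, hm⟩
    rw [card_eq_zero] at hN
    rw [hN] at this
    exact absurd this (notMem_empty _)
  · -- two indices without free colour
    obtain ⟨s1, s2, hne, hDeq⟩ := card_eq_two.1 hD
    have m1 : s1 ∈ D := by rw [hDeq]; simp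
    have m2 : s2 ∈ D := by rw [hDeq]; simp
    have hle : (O s1).card + (O s2).card + (b - 2) + N.card ≤ b + 5 := by
      have e1 : ∑ s ∈ (univ.erase s1).erase s2, 1 ≤ ∑ s ∈ (univ.erase s1).erase s2, (O s).card :=
        sum_le_sum fun s _ => O2 s
      have e5 : (O s1).card + ∑ s ∈ univ.erase s1, (O s).card = ∑ s, (O s).card :=
        add_sum_erase univ (fun s => (O s).card) (mem_univ s1)
      have m3 : s2 ∈ univ.erase s1 := mem_erase.2 ⟨hne.symm, mem_univ _⟩
      have e6 : (O s2).card + ∑ s ∈ (univ.erase s1).erase s2, (O s).card =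
          ∑ s ∈ univ.erase s1, (O s).card := add_sum_erase _ (fun s => (O s).card) m3
      have e7 : ∑ s ∈ (univ.erase s1).erase s2, 1 = b - 2 := by
        rw [sum_const, smul_eq_mul, mul_one, card_erase_of_mem m3, card_erase_of_mem (mem_univ s1),
          card_univ, Fintype.card_fin]
        omega
      omega
    have c1 := O5 s1 m1
    have c2 := O5 s2 m2
    -- the colours of `O s` are seen by three vertices
    have key : ∀ s ∈ D, (O s).card = 3 → f s ((O s).image r) ∈ N := by
      intro s hs hcard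
      apply inN s _ (k4F_of_card (card_image_le.trans hcard.le))
      intro p hp
      exact ⟨r p, mem_image_of_mem _ hp, hr p ((mem_filter.1 hs).2 hp)⟩
    have hb2 : 2 ≤ b := by omega
    have hN1 : 1 ≤ N.card := by
      rcases Nat.lt_or_ge 3 (O s1).card with h | h
      · have h3 : (O s2).card = 3 := by omega
        exact card_pos.2 ⟨_, key s2 m2 h3⟩
      · exact card_pos.2 ⟨_, key s1 m1 (by omega)⟩
    have a1 : (O s1).card = 3 := by omega
    have a2 : (O s2).card = 3 := by omega
    have k1 := key s1 m1 a1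
    have k2 := key s2 m2 a2
    have hN2 : N.card ≤ 1 := by omega
    have heq := card_le_one.1 hN2 _ k1 _ k2
    refine h1 s1 s2 _ _ hne ?_ heq
    have hdis : (O s1).image r ∩ (O s2).image r = ∅ := by
      rw [← disjoint_iff_inter_eq_empty, disjoint_left]
      intro u hu hu'
      obtain ⟨p, hp, hpu⟩ := mem_image.1 hu
      obtain ⟨p', hp', hpu'⟩ := mem_image.1 hu'
      have e1 := hr p ((mem_filter.1 m1).2 hp)
      have e2 := hr p' ((mem_filter.1 m2).2 hp')
      rw [hpu] at e1
      rw [hpu'] at e2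
      have : p = p' := e1.symm.trans e2
      subst this
      exact disjoint_left.1 (O1 s1 s2 hne) hp hp'
    rw [hdis]
    exact k3F_of_card (by simp)

/-! ### Chromatic number and cochromatic number -/

/-- types of a colouring of the right part -/
theorem exists_types (b : ℕ) (P : Type) [Finite P] : ∃ N : ℕ, ∀ h : Vx b N → P,
    ∃ i j k : Fin N, i < j ∧ j < k ∧ ∀ x : Fin b × Finset (Fin 12),
      h (Sum.inr (x, i, j)) = h (Sum.inr (x, j, k)) := by
  obtain ⟨N, hN⟩ := shift (Fin b × Finset (Fin 12) → P)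
  refine ⟨N, fun h => ?_⟩
  obtain ⟨i, j, k, hij, hjk, he⟩ := hN fun i j x => h (Sum.inr (x, i, j))
  exact ⟨i, j, k, hij, hjk, fun x => congrFun he x⟩

theorem not_colorable {b N : ℕ} {P : Type} [Fintype P] [DecidableEq P]
    (hP : Fintype.card P ≤ b + 5)
    (hN : ∀ h : Vx b N → P, ∃ i j k : Fin N, i < j ∧ j < k ∧ ∀ x : Fin b × Finset (Fin 12),
      h (Sum.inr (x, i, j)) = h (Sum.inr (x, j, k))) (h : Vx b N → P)
    (hh : ∀ v w, (GG b N).Adj v w → h v ≠ h w) : False := by
  obtain ⟨i, j, k, hij, hjk, he⟩ := hN h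
  refine core hP (fun u => h (Sum.inl u)) (fun u v huv => hh _ _ huv)
    (fun s T => h (Sum.inr ((s, T), i, j))) ?_ ?_
  · intro s s' T T' hss hT
    show h (Sum.inr ((s, T), i, j)) ≠ h (Sum.inr ((s', T'), i, j))
    rw [he (s', T')]
    exact hh _ _ ⟨⟨hss, hT⟩, Or.inl ⟨hij, rfl, hjk⟩⟩
  · intro s T hT u hu
    exact hh (Sum.inl u) (Sum.inr ((s, T), i, j)) ⟨hu, hT⟩

theorem colorable (b N : ℕ) : (GG b N).Colorable (b + 6) := by
  have h1 : ∀ a c : Fin 12, UAdj a c → a.val / 2 ≠ c.val / 2 := by decide +kernel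
  refine ⟨SimpleGraph.Coloring.mk (fun v => match v with
    | Sum.inl a => (⟨b + a.val / 2, by have := a.2; omega⟩ : Fin (b + 6))
    | Sum.inr (x, _) => ⟨x.1.val, by have := x.1.2; omega⟩) ?_⟩
  rintro (a | ⟨x, p⟩) (c | ⟨y, q⟩) hadj heq
  · have h2 := congrArg Fin.val heq
    simp only at h2
    exact h1 a c hadj (by omega)
  · have h2 := congrArg Fin.val heq
    simp only at h2
    have := y.1.2
    omega
  · have h2 := congrArg Fin.val heq
    simp only at h2
    have := x.1.2
    omega
  · have h2 := congrArg Fin.val heq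
    simp only at h2
    exact hadj.1.1 (Fin.ext h2)

theorem cocolorable (b N : ℕ) : ∃ c : Vx b N → Fin (b + 3), ∀ i,
    (GG b N).IsClique (c ⁻¹' {i}) ∨ (GG b N).IsIndepSet (c ⁻¹' {i}) := by
  have h1 : ∀ a c : Fin 12, a ≠ c → a.val % 3 = c.val % 3 → UAdj a c := by decide +kernel
  refine ⟨fun v => match v with
    | Sum.inl a => (⟨b + a.val % 3, by omega⟩ : Fin (b + 3))
    | Sum.inr (x, _) => ⟨x.1.val, by have := x.1.2; omega⟩, ?_⟩
  intro i
  rcases Nat.lt_or_ge i.val b with hi | hi
  · right
    rintro (a | ⟨x, p⟩) hv (c | ⟨y, q⟩) hw hne hadj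
    · have h2 : b + a.val % 3 = i.val := congrArg Fin.val hv
      omega
    · have h2 : b + a.val % 3 = i.val := congrArg Fin.val hv
      omega
    · have h2 : b + c.val % 3 = i.val := congrArg Fin.val hw
      omega
    · have h2 : x.1.val = i.val := congrArg Fin.val hv
      have h3 : y.1.val = i.val := congrArg Fin.val hw
      exact hadj.1.1 (Fin.ext (h2.trans h3.symm))
  · left
    rintro (a | ⟨x, p⟩) hv (c | ⟨y, q⟩) hw hne
    · have h2 : b + a.val % 3 = i.val := congrArg Fin.val hv
      have h3 : b + c.val % 3 = i.val := congrArg Fin.val hw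
      exact h1 a c (fun h => hne (by rw [h])) (by omega)
    · have h3 : y.1.val = i.val := congrArg Fin.val hw
      have := y.1.2
      omega
    · have h3 : x.1.val = i.val := congrArg Fin.val hv
      have := x.1.2
      omega
    · have h3 : x.1.val = i.val := congrArg Fin.val hv
      have := x.1.2
      omega

open Classical in
/-- a clique has at most four vertices in the left part -/
theorem clique_left {b N : ℕ} (s : Set (Vx b N)) (hs : (GG b N).IsClique s) :
    (univ.filter fun u : Fin 12 => (Sum.inl u : Vx b N) ∈ s).card ≤ 4 := by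
  classical
  by_contra hcon
  push Not at hcon
  obtain ⟨T, hT1, hT2⟩ := exists_subset_card_eq (show 5 ≤
    (univ.filter fun u : Fin 12 => (Sum.inl u : Vx b N) ∈ s).card by omega)
  refine cliqueFree b N (T.map ⟨Sum.inl, Sum.inl_injective⟩) ⟨?_, by rw [card_map, hT2]⟩
  intro v hv w hw hne
  rw [mem_coe, mem_map] at hv hw
  obtain ⟨u, hu, rfl⟩ := hv
  obtain ⟨u', hu', rfl⟩ := hw
  exact hs (mem_filter.1 (hT1 hu)).2 (mem_filter.1 (hT1 hu')).2 hne

theorem not_cocolorable {b N : ℕ}
    (hN : ∀ h : Vx b N → Fin (b + 2), ∃ i j k : Fin N, i < j ∧ j < k ∧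
      ∀ x : Fin b × Finset (Fin 12), h (Sum.inr (x, i, j)) = h (Sum.inr (x, j, k)))
    (h : Vx b N → Fin (b + 2))
    (hh : ∀ i, (GG b N).IsClique (h ⁻¹' {i}) ∨ (GG b N).IsIndepSet (h ⁻¹' {i})) : False := by
  classical
  obtain ⟨i, j, k, hij, hjk, he⟩ := hN h
  -- the independent classes
  let S : Finset (Fin (b + 2)) := univ.filter fun p => (GG b N).IsIndepSet (h ⁻¹' {p})
  have memS : ∀ p, p ∈ S ↔ (GG b N).IsIndepSet (h ⁻¹' {p}) := by intro p; simp [S]
  have hS : ∀ v w, h v ∈ S → (GG b N).Adj v w → h v ≠ h w := by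
    intro v w hv hadj heq
    rw [memS] at hv
    exact hv rfl heq.symm hadj.ne hadj
  let f : Fin b → Finset (Fin 12) → Fin (b + 2) := fun s T => h (Sum.inr ((s, T), i, j))
  have hfS : ∀ s T, f s T ∈ S := by
    intro s T
    rw [memS]
    rcases hh (f s T) with h1 | h1
    · exfalso
      have h2 : (GG b N).Adj (Sum.inr ((s, T), i, j)) (Sum.inr ((s, T), j, k)) := by
        refine h1 rfl (he (s, T)).symm ?_
        intro h3
        have h4 := congrArg (fun v : Vx b N => match v with
          | Sum.inl _ => (i : ℕ)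
          | Sum.inr (_, p) => (p.1 : ℕ)) h3
        simp only at h4
        omega
      exact h2.1.1 rfl
    · exact h1
  have p1 : ∀ s s' T T', s ≠ s' → K3F (T ∩ T') → f s T ≠ f s' T' := by
    intro s s' T T' hss hT
    show h (Sum.inr ((s, T), i, j)) ≠ h (Sum.inr ((s', T'), i, j))
    rw [he (s', T')]
    exact hS _ _ (hfS s T) ⟨⟨hss, hT⟩, Or.inl ⟨hij, rfl, hjk⟩⟩
  have p2 : ∀ s T, K4F T → ∀ u ∈ T, h (Sum.inl u) ≠ f s T := by
    intro s T hT u hu
    exact (hS (Sum.inr ((s, T), i, j)) (Sum.inl u) (hfS s T) ⟨hu, hT⟩).symm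
  -- a triangle-free type avoids the colours it sees
  have p3 : ∀ T, K3F T → b ≤ (S \ T.image fun u => h (Sum.inl u)).card := by
    intro T hT
    have h1 : (univ : Finset (Fin b)).card ≤ (S \ T.image fun u => h (Sum.inl u)).card := by
      apply card_le_card_of_injOn (fun s => f s T)
      · intro s _
        simp only [coe_sdiff, Set.mem_sdiff, mem_coe, mem_image, not_exists, not_and]
        exact ⟨hfS s T, fun u hu => p2 s T hT.k4F u hu⟩
      · intro s _ s' _ hss
        by_contra hne
        exact p1 s s' T T hne (hT.mono inter_subset_left) hss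
    rwa [card_univ, Fintype.card_fin] at h1
  -- the left vertices in independent classes
  let U' : Finset (Fin 12) := univ.filter fun u => h (Sum.inl u) ∈ S
  have hcover : 12 ≤ U'.card + 4 * (univ \ S).card := by
    have h1 : (univ : Finset (Fin 12)) ⊆ U' ∪ (univ \ S).biUnion fun p =>
        univ.filter fun u : Fin 12 => (Sum.inl u : Vx b N) ∈ h ⁻¹' {p} := by
      intro u _
      rw [mem_union]
      by_cases hu : h (Sum.inl u) ∈ S
      · exact Or.inl (mem_filter.2 ⟨mem_univ _, hu⟩)
      · right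
        rw [mem_biUnion]
        exact ⟨h (Sum.inl u), mem_sdiff.2 ⟨mem_univ _, hu⟩, mem_filter.2 ⟨mem_univ _, rfl⟩⟩
    have h2 := (card_le_card h1).trans (card_union_le _ _)
    have h3 : ((univ \ S).biUnion fun p =>
        univ.filter fun u : Fin 12 => (Sum.inl u : Vx b N) ∈ h ⁻¹' {p}).card ≤
        (univ \ S).card * 4 := by
      apply card_biUnion_le_card_mul
      intro p hp
      apply clique_left
      rcases hh p with h4 | h4
      · exact h4
      · exact absurd ((memS p).2 h4) (mem_sdiff.1 hp).2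
    rw [card_univ, Fintype.card_fin] at h2
    omega
  have hSc : S.card + (univ \ S).card = b + 2 := by
    have := card_sdiff_of_subset (subset_univ S)
    rw [card_univ, Fintype.card_fin] at this
    have h2 := card_le_univ S
    rw [Fintype.card_fin] at h2
    omega
  have h0 := p3 ∅ (k3F_of_card (by simp))
  rw [image_empty, sdiff_empty] at h0
  obtain hq | hq | hq : (univ \ S).card = 0 ∨ (univ \ S).card = 1 ∨ (univ \ S).card = 2 := by omega
  · -- a proper colouring
    have hall : ∀ p, p ∈ S := by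
      intro p
      by_contra hp
      have : p ∈ univ \ S := mem_sdiff.2 ⟨mem_univ _, hp⟩
      rw [card_eq_zero] at hq
      rw [hq] at this
      exact absurd this (notMem_empty _)
    exact core (by rw [Fintype.card_fin]; omega) (fun u => h (Sum.inl u))
      (fun u v huv => hS _ _ (hall _) huv) f p1 p2
  · -- one clique
    have h2 : ∃ u ∈ U', ∃ v ∈ U', h (Sum.inl u) ≠ h (Sum.inl v) := by
      by_contra hcon
      push Not at hcon
      obtain ⟨x, y, z, hx, hy, hz, hxy, hxz, hyz⟩ := two_lt_card_iff.1 (show 2 < U'.card by omega)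
      have hx' := (mem_filter.1 hx).2
      have hy' := (mem_filter.1 hy).2
      rcases u_alpha x y z hxy hxz hyz with h3 | h3 | h3
      · exact hS (Sum.inl x) (Sum.inl y) hx' h3 (hcon x hx y hy)
      · exact hS (Sum.inl x) (Sum.inl z) hx' h3 (hcon x hx z hz)
      · exact hS (Sum.inl y) (Sum.inl z) hy' h3 (hcon y hy z hz)
    obtain ⟨u, hu, v, hv, huv⟩ := h2
    have h3 := p3 {u, v} (k3F_of_card (card_le_two))
    have h4 : (S \ ({u, v} : Finset (Fin 12)).image fun u => h (Sum.inl u)).card = S.card - 2 := by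
      rw [card_sdiff_of_subset]
      · rw [image_insert, image_singleton, card_pair huv]
      · intro p hp
        rw [mem_image] at hp
        obtain ⟨w, hw, rfl⟩ := hp
        rw [mem_insert, mem_singleton] at hw
        rcases hw with rfl | rfl
        · exact (mem_filter.1 hu).2
        · exact (mem_filter.1 hv).2
    have h5 : 2 ≤ S.card := by
      have h6 : ({h (Sum.inl u), h (Sum.inl v)} : Finset (Fin (b + 2))) ⊆ S := by
        intro p hp
        rw [mem_insert, mem_singleton] at hp
        rcases hp with rfl | rfl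
        · exact (mem_filter.1 hu).2
        · exact (mem_filter.1 hv).2
      have h7 := card_le_card h6
      rwa [card_pair huv] at h7
    omega
  · -- two cliques
    obtain ⟨u, hu⟩ := card_pos.1 (show 0 < U'.card by omega)
    have huS := (mem_filter.1 hu).2
    have h3 := p3 {u} (k3F_of_card (by simp))
    have h4 : (S \ ({u} : Finset (Fin 12)).image fun u => h (Sum.inl u)).card = S.card - 1 := by
      rw [card_sdiff_of_subset]
      · rw [image_singleton, card_singleton]
      · rw [image_singleton, singleton_subset_iff]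
        exact huS
    have h5 : 1 ≤ S.card := card_pos.2 ⟨_, huS⟩
    omega

end Pool.Agent.R50.GapThree
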