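import Mathlib

/-!
# Shortest odd cycles are induced
-/

set_option autoImplicit false

namespace Pool.Agent.R50.OddCycle

open SimpleGraph

variable {V : Type*} {G : SimpleGraph V}

/-- `f 0, …, f n` is a closed walk with `n` steps. -/
def Closed (G : SimpleGraph V) (n : ℕ) (f : ℕ → V) : Prop :=
  f 0 = f n ∧ ∀ i < n, G.Adj (f i) (f (i + 1))

theorem exists_closed_odd (h : ¬ G.Colorable 2) : ∃ n, Odd n ∧ ∃ f, Closed G n f := by
  rw [two_colorable_iff_forall_loop_even] at h
  push Not at h
  obtain ⟨u, w, hw⟩ := h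
  refine ⟨w.length, Nat.not_even_iff_odd.1 hw, w.getVert, ?_, ?_⟩
  · rw [w.getVert_zero, w.getVert_length]
  · intro i hi
    exact w.adj_getVert_succ hi

theorem shorten_in {n : ℕ} {f : ℕ → V} (hf : Closed G n f) {i j : ℕ} (hij : i ≤ j) (hj : j ≤ n)
    (he : f i = f j) : ∃ g, Closed G (j - i) g := by
  refine ⟨fun t => f (i + t), ?_, ?_⟩
  · show f (i + 0) = f (i + (j - i))
    rw [Nat.add_zero, Nat.add_sub_cancel' hij, he]
  · intro t ht
    show G.Adj (f (i + t)) (f (i + (t + 1)))
    rw [← Nat.add_assoc]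
    exact hf.2 _ (by omega)

theorem shorten_out {n : ℕ} {f : ℕ → V} (hf : Closed G n f) {i j : ℕ} (hij : i ≤ j) (hj : j ≤ n)
    (he : f i = f j) : ∃ g, Closed G (n - (j - i)) g := by
  refine ⟨fun t => if t ≤ i then f t else f (t + (j - i)), ?_, ?_⟩
  · show (if 0 ≤ i then f 0 else _) = (if n - (j - i) ≤ i then f (n - (j - i)) else
      f (n - (j - i) + (j - i)))
    rw [if_pos (Nat.zero_le _)]
    split_ifs with h
    · have h1 : j = n := by omega
      have h2 : n - (j - i) = i := by omega
      rw [h2, he, h1, hf.1]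
    · rw [Nat.sub_add_cancel (by omega), hf.1]
  · intro t ht
    show G.Adj (if t ≤ i then f t else f (t + (j - i)))
      (if t + 1 ≤ i then f (t + 1) else f (t + 1 + (j - i)))
    split_ifs with h1 h2 h2
    · exact hf.2 t (by omega)
    · have h3 : t = i := by omega
      subst h3
      rw [he]
      have h4 : t + 1 + (j - t) = j + 1 := by omega
      rw [h4]
      exact hf.2 j (by omega)
    · omega
    · have h4 : t + 1 + (j - i) = t + (j - i) + 1 := by omega
      rw [h4]
      exact hf.2 _ (by omega)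

/-- close the part between `i` and `j` by the chord -/
theorem chord_in {n : ℕ} {f : ℕ → V} (hf : Closed G n f) {i j : ℕ} (hij : i < j) (hj : j ≤ n)
    (he : G.Adj (f i) (f j)) : ∃ g, Closed G (j - i + 1) g := by
  refine ⟨fun t => if t ≤ j - i then f (i + t) else f i, ?_, ?_⟩
  · show (if 0 ≤ j - i then f (i + 0) else f i) = (if j - i + 1 ≤ j - i then _ else f i)
    rw [if_pos (Nat.zero_le _), if_neg (by omega), Nat.add_zero]
  · intro t ht
    show G.Adj (if t ≤ j - i then f (i + t) else f i)
      (if t + 1 ≤ j - i then f (i + (t + 1)) else f i)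
    rw [if_pos (by omega)]
    split_ifs with h1
    · rw [← Nat.add_assoc]
      exact hf.2 _ (by omega)
    · have h2 : i + t = j := by omega
      rw [h2]
      exact he.symm

/-- jump over the part between `i` and `j` by the chord -/
theorem chord_out {n : ℕ} {f : ℕ → V} (hf : Closed G n f) {i j : ℕ} (hij : i < j) (hj : j ≤ n)
    (he : G.Adj (f i) (f j)) : ∃ g, Closed G (n - (j - i) + 1) g := by
  refine ⟨fun t => if t ≤ i then f t else f (t + (j - i) - 1), ?_, ?_⟩
  · show (if 0 ≤ i then f 0 else _) = (if n - (j - i) + 1 ≤ i then _ else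
      f (n - (j - i) + 1 + (j - i) - 1))
    rw [if_pos (Nat.zero_le _), if_neg (by omega)]
    have h2 : n - (j - i) + 1 + (j - i) - 1 = n := by omega
    rw [h2, hf.1]
  · intro t ht
    show G.Adj (if t ≤ i then f t else f (t + (j - i) - 1))
      (if t + 1 ≤ i then f (t + 1) else f (t + 1 + (j - i) - 1))
    split_ifs with h1 h2 h2
    · exact hf.2 t (by omega)
    · have h3 : t = i := by omega
      subst h3
      have h4 : t + 1 + (j - t) - 1 = j := by omega
      rw [h4]
      exact he
    · omega
    · have h4 : t + 1 + (j - i) - 1 = t + (j - i) - 1 + 1 := by omega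
      rw [h4]
      exact hf.2 _ (by omega)

/-- A graph that is not `2`-colourable contains an induced odd cycle. -/
theorem exists_induced_odd_cycle (h : ¬ G.Colorable 2) :
    ∃ n, Odd n ∧ 3 ≤ n ∧ ∃ f : ℕ → V, Closed G n f ∧
      (∀ i < n, ∀ j < n, f i = f j → i = j) ∧
      ∀ i < n, ∀ j < n, G.Adj (f i) (f j) → (i + 1 = j ∨ j + 1 = i ∨ (i = 0 ∧ j + 1 = n) ∨
        (j = 0 ∧ i + 1 = n)) := by
  classical
  have hex := exists_closed_odd h
  let n := Nat.find hex
  obtain ⟨hodd, f, hf⟩ := Nat.find_spec hex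
  have hmin : ∀ m, m < n → Odd m → ¬ ∃ g, Closed G m g := fun m hm ho hg =>
    Nat.find_min hex hm ⟨ho, hg⟩
  change Odd n at hodd
  change Closed G n f at hf
  have hn3 : 3 ≤ n := by
    by_contra hlt
    have h1 : n = 1 := by
      obtain ⟨k, hk⟩ := hodd
      omega
    have h2 := hf.2 0 (by omega)
    have h3 := hf.1
    rw [h1] at h3
    rw [h3] at h2
    exact h2.ne rfl
  have hinj : ∀ i j, i < j → j < n → f i ≠ f j := by
    intro i j hij hj he
    have h1 := shorten_in hf hij.le hj.le he
    have h2 := shorten_out hf hij.le hj.le he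
    by_cases ho : Odd (j - i)
    · exact hmin _ (by omega) ho h1
    · refine hmin _ (by omega) ?_ h2
      rw [Nat.not_odd_iff_even] at ho
      exact Nat.Odd.sub_even (by omega) hodd ho
  have hch : ∀ i j, i < j → j < n → G.Adj (f i) (f j) → (i + 1 = j ∨ (i = 0 ∧ j + 1 = n)) := by
    intro i j hij hj he
    by_contra hcon
    push Not at hcon
    have h1 := chord_in hf hij hj.le he
    have h2 := chord_out hf hij hj.le he
    by_cases ho : Odd (j - i + 1)
    · refine hmin _ ?_ ho h1
      by_cases hi : i = 0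
      · have := hcon.2 hi
        omega
      · omega
    · refine hmin _ (by have := hcon.1; omega) ?_ h2
      rw [Nat.not_odd_iff_even] at ho
      obtain ⟨a, ha⟩ := ho
      obtain ⟨b, hb⟩ := hodd
      exact ⟨b + 1 - a, by omega⟩
  refine ⟨n, hodd, hn3, f, hf, ?_, ?_⟩
  · intro i hi j hj he
    rcases lt_trichotomy i j with hlt | heq | hlt
    · exact absurd he (hinj i j hlt hj)
    · exact heq
    · exact absurd he.symm (hinj j i hlt hi)
  · intro i hi j hj he
    rcases lt_trichotomy i j with hlt | heq | hlt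
    · rcases hch i j hlt hj he with h1 | h1
      · exact Or.inl h1
      · exact Or.inr (Or.inr (Or.inl h1))
    · subst heq
      exact absurd he (G.loopless.irrefl _)
    · rcases hch j i hlt hi he.symm with h1 | h1
      · exact Or.inr (Or.inl h1)
      · exact Or.inr (Or.inr (Or.inr h1))

/-- The vertex set of a closed odd walk does not induce a `2`-colourable graph. -/
theorem not_colorable_of_closed {n : ℕ} (hn : Odd n) {f : ℕ → V} (hf : Closed G n f) {s : Set V}
    (hs : ∀ i ≤ n, f i ∈ s) : ¬ (G.induce s).Colorable 2 := by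
  rintro ⟨c⟩
  have key : ∀ i, (hi : i ≤ n) → (c ⟨f i, hs i hi⟩ = c ⟨f 0, hs 0 (Nat.zero_le _)⟩ ↔ Even i) := by
    intro i
    induction i with
    | zero => intro _; simp
    | succ i ih =>
      intro hi
      have h1 := ih (by omega)
      have h2 : c ⟨f i, hs i (by omega)⟩ ≠ c ⟨f (i + 1), hs (i + 1) hi⟩ :=
        c.valid (by
          show G.Adj (f i) (f (i + 1))
          exact hf.2 i (by omega))
      rw [Nat.even_add_one, ← h1]
      generalize c ⟨f i, hs i (by omega)⟩ = a at *
      generalize c ⟨f (i + 1), hs (i + 1) hi⟩ = b at *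
      generalize c ⟨f 0, hs 0 (Nat.zero_le _)⟩ = d at *
      revert h2
      clear h1 ih
      revert a b d
      decide
  have h1 := (key n le_rfl)
  have h2 : c ⟨f n, hs n le_rfl⟩ = c ⟨f 0, hs 0 (Nat.zero_le _)⟩ := by
    congr 1
    exact Subtype.ext hf.1.symm
  exact (Nat.not_even_iff_odd.2 hn) (h1.1 h2)

end Pool.Agent.R50.OddCycle
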