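import Mathlib

/-!
# A planar triangle-free graph that is not the union of two induced cographs

The graph has 55 vertices and 96 edges.  The gadget (19 vertices) has the following property: in
every colouring with two colours without monochromatic induced path on four vertices the vertices
`0` and `1` have the same colour.
-/

set_option autoImplicit false

namespace Pool.Agent.R50.PlanarCograph

/-- the neighbourhoods in the gadget, as bit masks -/
def gMask : List ℕ :=
  [60, 60, 262467, 267907, 92163, 163843, 132, 328, 644, 264,
    2056, 5136, 10248, 4112, 32784, 81952, 163856, 65568, 12]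

/-- adjacency in the gadget -/
def gAdj (a b : ℕ) : Bool := (gMask.getD a 0).testBit b

/-- the neighbourhoods in the graph, as bit masks -/
def mask : List ℕ :=
  [4123168604402, 31457285, 250, 4123200061444, 1049861, 1071621,
    368645, 655365, 528, 1312, 2576, 1056,
    8224, 20544, 40992, 16448, 131136, 327808,
    655424, 262272, 48, 137606725642, 140458852362, 48318382090,
    85899345930, 69206016, 171966464, 337641472, 138412032, 1077936128,
    2692743168, 5372903424, 2155872256, 17188257792, 42966450176, 85907734528,
    34376515584, 6291456, 18036388742037513, 18410222695481353, 6333186975989769, 11258999068426249,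
    9070970929152, 22539988369408, 44255343017984, 18141941858304, 141287244169216, 352943232516096,
    704237197590528, 282574488338432, 2252899325313024, 5631698557468672, 11260098580054016, 4505798650626048,
    824633720832]

/-- adjacency in the graph -/
def adj (a b : ℕ) : Bool := (mask.getD a 0).testBit b

/-- the edges of the graph -/
def edges : List (ℕ × ℕ) :=
  [(0, 1), (1, 2), (2, 3), (0, 4), (2, 4), (0, 5), (2, 5), (0, 6), (2, 6), (0, 7),
    (2, 7), (8, 9), (9, 10), (10, 11), (4, 8), (4, 10), (5, 9), (5, 11), (12, 13), (13, 14),
    (14, 15), (5, 12), (5, 14), (6, 13), (6, 15), (16, 17), (17, 18), (18, 19), (6, 16), (6, 18),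
    (7, 17), (7, 19), (4, 20), (5, 20), (1, 21), (3, 21), (1, 22), (3, 22), (1, 23), (3, 23),
    (1, 24), (3, 24), (25, 26), (26, 27), (27, 28), (21, 25), (21, 27), (22, 26), (22, 28), (29, 30),
    (30, 31), (31, 32), (22, 29), (22, 31), (23, 30), (23, 32), (33, 34), (34, 35), (35, 36), (23, 33),
    (23, 35), (24, 34), (24, 36), (21, 37), (22, 37), (0, 38), (3, 38), (0, 39), (3, 39), (0, 40),
    (3, 40), (0, 41), (3, 41), (42, 43), (43, 44), (44, 45), (38, 42), (38, 44), (39, 43), (39, 45),
    (46, 47), (47, 48), (48, 49), (39, 46), (39, 48), (40, 47), (40, 49), (50, 51), (51, 52), (52, 53),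
    (40, 50), (40, 52), (41, 51), (41, 53), (38, 54), (39, 54)]

/-- coordinates of a straight line drawing -/
def pos : List (ℤ × ℤ) :=
  [(0, 0), (1000, -100), (2000, -130), (3000, 20), (1000, 1000), (1000, 1200), (1000, 1400),
    (1000, 1600), (985, 1095), (995, 1105), (1005, 1095), (1015, 1105), (986, 1295), (996, 1305),
    (1006, 1295), (1016, 1305), (987, 1495), (997, 1505), (1007, 1495), (1017, 1505), (1030, 1100),
    (2000, -1000), (2000, -1200), (2000, -1400), (2000, -1600), (1985, -1095), (1995, -1105), (2005, -1095),
    (2015, -1105), (1986, -1295), (1996, -1305), (2006, -1295), (2016, -1305), (1987, -1495), (1997, -1505),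
    (2007, -1495), (2017, -1505), (2030, -1100), (1500, 4000), (1500, 4400), (1500, 4800), (1500, 5200),
    (1485, 4195), (1495, 4205), (1505, 4195), (1515, 4205), (1486, 4595), (1496, 4605), (1506, 4595),
    (1516, 4605), (1487, 4995), (1497, 5005), (1507, 4995), (1517, 5005), (1530, 4200)]

/-- a proper `3`-colouring -/
def col : List ℕ :=
  [0, 2, 0, 1, 2, 2, 2, 2, 0, 1, 0, 1, 0, 1, 0, 1, 0, 1,
    0, 1, 0, 0, 0, 0, 0, 1, 2, 1, 2, 1, 2, 1, 2, 1, 2, 1,
    2, 1, 2, 2, 2, 2, 0, 1, 0, 1, 0, 1, 0, 1, 0, 1, 0, 1,
    0]

/-! ### Finite checks -/

/-- `a b c d` is an induced path for the adjacency `r`. -/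
def P4 (r : ℕ → ℕ → Bool) (a b c d : ℕ) : Prop :=
  r a b = true ∧ r b c = true ∧ r c d = true ∧ r a c = false ∧ r a d = false ∧ r b d = false ∧
    a ≠ c ∧ a ≠ d ∧ b ≠ d

instance (r : ℕ → ℕ → Bool) (a b c d : ℕ) : Decidable (P4 r a b c d) := by
  unfold P4; infer_instance

/-- the vertices of the copies of the gadget -/
def emb (u v base i : ℕ) : ℕ := if i = 0 then u else if i = 1 then v else base + (i - 2)

/-- the copy of the gadget is induced -/
def embOk (u v base : ℕ) : Bool :=
  (List.range 19).all fun i => (List.range 19).all fun j =>
    (gAdj i j == adj (emb u v base i) (emb u v base j)) &&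
      (i == j || !(emb u v base i == emb u v base j)) && decide (emb u v base i < 55)

theorem emb1 : embOk 0 2 4 = true := by decide +kernel
theorem emb2 : embOk 1 3 21 = true := by decide +kernel
theorem emb3 : embOk 0 3 38 = true := by decide +kernel

theorem adj_symm_check : ((List.range 55).all fun a => (List.range 55).all fun b =>
    adj a b == adj b a) = true := by decide +kernel

theorem adj_irrefl_check : ((List.range 55).all fun a => !adj a a) = true := by decide +kernel

theorem triangle_check : ((List.range 55).all fun a => (List.range 55).all fun b =>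
    !adj a b || (List.range 55).all fun c => !(adj a c && adj b c)) = true := by decide +kernel

theorem edges_check : ((List.range 55).all fun a => (List.range 55).all fun b =>
    !adj a b || edges.contains (min a b, max a b)) = true := by decide +kernel

theorem col_check : ((List.range 55).all fun a => (List.range 55).all fun b =>
    !adj a b || !(col.getD a 0 == col.getD b 0)) = true := by decide +kernel

theorem col_lt : (col.all fun i => decide (i < 3)) = true := by decide +kernel

theorem deg_check : ((List.range 55).all fun a => (List.range 55).any fun b => adj a b) = true := by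
  decide +kernel

/-- orientation of a triple of points -/
def ori (a b c : ℤ × ℤ) : ℤ := (b.1 - a.1) * (c.2 - a.2) - (b.2 - a.2) * (c.1 - a.1)

/-- position -/
def ps (a : ℕ) : ℤ × ℤ := pos.getD a (0, 0)

/-- The segments of the two edges meet only in a common end. -/
def sepB (a b x y : ℕ) : Bool :=
  if a = x then !(ori (ps a) (ps b) (ps y) == 0)
  else if a = y then !(ori (ps a) (ps b) (ps x) == 0)
  else if b = x then !(ori (ps b) (ps a) (ps y) == 0)
  else if b = y then !(ori (ps b) (ps a) (ps x) == 0)
  else (decide (0 < ori (ps a) (ps b) (ps x)) && decide (0 < ori (ps a) (ps b) (ps y))) ||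
    (decide (ori (ps a) (ps b) (ps x) < 0) && decide (ori (ps a) (ps b) (ps y) < 0)) ||
    (decide (0 < ori (ps x) (ps y) (ps a)) && decide (0 < ori (ps x) (ps y) (ps b))) ||
    (decide (ori (ps x) (ps y) (ps a) < 0) && decide (ori (ps x) (ps y) (ps b) < 0))

theorem sep_check : (edges.all fun e => edges.all fun f =>
    (e.1 == f.1 && e.2 == f.2) || sepB e.1 e.2 f.1 f.2) = true := by decide +kernel

theorem pos_check : ((List.range 55).all fun a => (List.range 55).all fun b =>
    a == b || !((ps a).1 == (ps b).1 && (ps a).2 == (ps b).2)) = true := by decide +kernel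

end Pool.Agent.R50.PlanarCograph
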