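import Pool.Agent.R50.PlanarCograph

/-!
# The planar graph: consequences of the finite checks
-/

set_option autoImplicit false

namespace Pool.Agent.R50.PlanarCograph

theorem all_range {n : ℕ} {p : ℕ → Bool} (h : (List.range n).all p = true) :
    ∀ a < n, p a = true := by
  intro a ha
  rw [List.all_eq_true] at h
  exact h a (List.mem_range.2 ha)

theorem adj_comm {a b : ℕ} (ha : a < 55) (hb : b < 55) : adj a b = adj b a := by
  have := all_range (all_range adj_symm_check a ha) b hb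
  simpa using this

theorem adj_irrefl {a : ℕ} (ha : a < 55) : adj a a = false := by
  have := all_range adj_irrefl_check a ha
  simpa using this

theorem no_triangle {a b c : ℕ} (ha : a < 55) (hb : b < 55) (hc : c < 55) (h1 : adj a b = true)
    (h2 : adj a c = true) (h3 : adj b c = true) : False := by
  have := all_range (all_range triangle_check a ha) b hb
  simp only [h1, Bool.not_true, Bool.false_or] at this
  have := all_range this c hc
  simp [h2, h3] at this

theorem mem_edges {a b : ℕ} (ha : a < 55) (hb : b < 55) (h : adj a b = true) :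
    (min a b, max a b) ∈ edges := by
  have := all_range (all_range edges_check a ha) b hb
  simpa [h] using this

theorem col_ne {a b : ℕ} (ha : a < 55) (hb : b < 55) (h : adj a b = true) :
    col.getD a 0 ≠ col.getD b 0 := by
  have := all_range (all_range col_check a ha) b hb
  simpa [h] using this

theorem col_lt3 (a : ℕ) : col.getD a 0 < 3 := by
  have h1 := col_lt
  rw [List.all_eq_true] at h1
  rcases Nat.lt_or_ge a col.length with ha | ha
  · have h2 := h1 (col[a]) (List.getElem_mem ha)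
    rw [List.getD_eq_getElem _ _ ha]
    simpa using h2
  · rw [List.getD_eq_default _ _ ha]
    norm_num

theorem has_nbr {a : ℕ} (ha : a < 55) : ∃ b < 55, adj a b = true := by
  have := all_range deg_check a ha
  rw [List.any_eq_true] at this
  obtain ⟨b, hb, h⟩ := this
  exact ⟨b, List.mem_range.1 hb, h⟩

/-! ### The gadget -/

theorem ladder (a b z x1 x2 x3 x4 : Bool) (h1 : ¬ (x1 = a ∧ a = z ∧ z = b))
    (h3 : ¬ (x3 = a ∧ a = z ∧ z = b)) (h2 : ¬ (x2 = b ∧ b = z ∧ z = a))
    (h4 : ¬ (x4 = b ∧ b = z ∧ z = a)) (h5 : ¬ (x1 = x2 ∧ x2 = x3 ∧ x3 = x4)) :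
    ¬ (a = b ∧ z = a) := by
  rintro ⟨rfl, rfl⟩
  cases z <;> cases x1 <;> cases x2 <;> cases x3 <;> cases x4 <;> simp_all

theorem last (u v w1 w2 w3 w4 p : Bool) (h1 : ¬ (p = w1 ∧ w1 = u ∧ u = w3))
    (h2 : ¬ (p = w1 ∧ w1 = v ∧ v = w3)) (h3 : ¬ (p = w2 ∧ w2 = u ∧ u = w4))
    (h4 : ¬ (p = w2 ∧ w2 = v ∧ v = w4)) (h5 : ¬ (w1 = w2 ∧ u = w1)) (h6 : ¬ (w1 = w2 ∧ v = w1))
    (h7 : ¬ (w2 = w3 ∧ u = w2)) (h8 : ¬ (w2 = w3 ∧ v = w2)) (h9 : ¬ (w3 = w4 ∧ u = w3))
    (h10 : ¬ (w3 = w4 ∧ v = w3)) : u = v := by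
  cases u <;> cases v <;> cases w1 <;> cases w2 <;> cases w3 <;> cases w4 <;> cases p <;> simp_all

/-- The two terminals of the gadget have the same colour. -/
theorem gadget (c : ℕ → Bool)
    (h : ∀ a b d e, a < 19 → b < 19 → d < 19 → e < 19 → P4 gAdj a b d e →
      ¬ (c a = c b ∧ c b = c d ∧ c d = c e)) : c 0 = c 1 := by
  have l : ∀ z a b x1 x2 x3 x4 : ℕ, z < 19 → a < 19 → b < 19 → x1 < 19 → x2 < 19 → x3 < 19 →
      x4 < 19 → P4 gAdj x1 a z b → P4 gAdj x3 a z b → P4 gAdj x2 b z a →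
      P4 gAdj x4 b z a → P4 gAdj x1 x2 x3 x4 → ¬ (c a = c b ∧ c z = c a) :=
    fun z a b x1 x2 x3 x4 g1 g2 g3 g4 g5 g6 g7 h1 h3 h2 h4 h5 => ladder _ _ _ _ _ _ _
      (h _ _ _ _ g4 g2 g1 g3 h1) (h _ _ _ _ g6 g2 g1 g3 h3)
      (h _ _ _ _ g5 g3 g1 g2 h2) (h _ _ _ _ g7 g3 g1 g2 h4) (h _ _ _ _ g4 g5 g6 g7 h5)
  have h5 := l 0 2 3 6 7 8 9 (by decide) (by decide) (by decide) (by decide) (by decide)
    (by decide) (by decide) (by decide) (by decide) (by decide) (by decide) (by decide)
  have h6 := l 1 2 3 6 7 8 9 (by decide) (by decide) (by decide) (by decide) (by decide)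
    (by decide) (by decide) (by decide) (by decide) (by decide) (by decide) (by decide)
  have h7 := l 0 3 4 10 11 12 13 (by decide) (by decide) (by decide) (by decide) (by decide)
    (by decide) (by decide) (by decide) (by decide) (by decide) (by decide) (by decide)
  have h8 := l 1 3 4 10 11 12 13 (by decide) (by decide) (by decide) (by decide) (by decide)
    (by decide) (by decide) (by decide) (by decide) (by decide) (by decide) (by decide)
  have h9 := l 0 4 5 14 15 16 17 (by decide) (by decide) (by decide) (by decide) (by decide)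
    (by decide) (by decide) (by decide) (by decide) (by decide) (by decide) (by decide)
  have h10 := l 1 4 5 14 15 16 17 (by decide) (by decide) (by decide) (by decide) (by decide)
    (by decide) (by decide) (by decide) (by decide) (by decide) (by decide) (by decide)
  exact last _ _ _ _ _ _ _
    (h 18 2 0 4 (by decide) (by decide) (by decide) (by decide) (by decide))
    (h 18 2 1 4 (by decide) (by decide) (by decide) (by decide) (by decide))
    (h 18 3 0 5 (by decide) (by decide) (by decide) (by decide) (by decide))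
    (h 18 3 1 5 (by decide) (by decide) (by decide) (by decide) (by decide))
    h5 h6 h7 h8 h9 h10

theorem emb_good (u v base : ℕ) (hok : embOk u v base = true) (c : ℕ → Bool)
    (h : ∀ a b d e, a < 55 → b < 55 → d < 55 → e < 55 → P4 adj a b d e →
      ¬ (c a = c b ∧ c b = c d ∧ c d = c e)) : c u = c v := by
  have hok' : ∀ i < 19, ∀ j < 19, gAdj i j = adj (emb u v base i) (emb u v base j) ∧
      (i = j ∨ emb u v base i ≠ emb u v base j) ∧ emb u v base i < 55 := by
    intro i hi j hj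
    have h1 := all_range (all_range hok i hi) j hj
    simp only [Bool.and_eq_true, beq_iff_eq, Bool.or_eq_true, Bool.not_eq_true',
      beq_eq_false_iff_ne, decide_eq_true_eq] at h1
    exact ⟨h1.1.1, h1.1.2, h1.2⟩
  have := gadget (fun i => c (emb u v base i)) (by
    rintro a b d e ha hb hd he ⟨a1, a2, a3, a4, a5, a6, a7, a8, a9⟩
    have lt : ∀ i < 19, emb u v base i < 55 := fun i hi => (hok' i hi i hi).2.2
    have ne : ∀ i < 19, ∀ j < 19, i ≠ j → emb u v base i ≠ emb u v base j := fun i hi j hj hij =>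
      (hok' i hi j hj).2.1.resolve_left hij
    refine h _ _ _ _ (lt a ha) (lt b hb) (lt d hd) (lt e he) ⟨?_, ?_, ?_, ?_, ?_, ?_, ?_, ?_, ?_⟩
    · rw [← (hok' a ha b hb).1]; exact a1
    · rw [← (hok' b hb d hd).1]; exact a2
    · rw [← (hok' d hd e he).1]; exact a3
    · rw [← (hok' a ha d hd).1]; exact a4
    · rw [← (hok' a ha e he).1]; exact a5
    · rw [← (hok' b hb e he).1]; exact a6
    · exact ne a ha d hd a7
    · exact ne a ha e he a8
    · exact ne b hb e he a9)
  simpa [emb] using this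

/-- Every colouring with two colours has a monochromatic induced path on four vertices. -/
theorem exists_mono (c : ℕ → Bool) : ∃ a b d e, a < 55 ∧ b < 55 ∧ d < 55 ∧ e < 55 ∧
    P4 adj a b d e ∧ c a = c b ∧ c b = c d ∧ c d = c e := by
  by_contra hcon
  push Not at hcon
  have h : ∀ a b d e, a < 55 → b < 55 → d < 55 → e < 55 → P4 adj a b d e →
      ¬ (c a = c b ∧ c b = c d ∧ c d = c e) :=
    fun a b d e ha hb hd he h1 h2 => hcon a b d e ha hb hd he h1 h2.1 h2.2.1 h2.2.2
  have h1 := emb_good 0 2 4 emb1 c h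
  have h2 := emb_good 1 3 21 emb2 c h
  have h3 := emb_good 0 3 38 emb3 c h
  refine h 0 1 2 3 (by decide) (by decide) (by decide) (by decide) (by decide +kernel)
    ⟨?_, ?_, ?_⟩
  · rw [h2, h3]
  · rw [h2, ← h3, h1]
  · rw [← h1, h3]

/-! ### The graph -/

/-- The graph. -/
def G : SimpleGraph (Fin 55) where
  Adj a b := adj a b = true
  symm := ⟨fun a b h => by rw [adj_comm b.2 a.2]; exact h⟩
  loopless := ⟨fun a h => by rw [adj_irrefl a.2] at h; exact absurd h (by simp)⟩

theorem G_triangleFree : G.CliqueFree 3 := by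
  intro s hs
  rw [SimpleGraph.is3Clique_iff] at hs
  obtain ⟨a, b, c, hab, hac, hbc, -⟩ := hs
  exact no_triangle a.2 b.2 c.2 hab hac hbc

/-- the drawing -/
noncomputable def pt (a : Fin 55) : ℝ × ℝ := (((ps a).1 : ℝ), ((ps a).2 : ℝ))

theorem pt_inj : Function.Injective pt := by
  intro a b h
  have h1 : (ps a).1 = (ps b).1 := by
    have := congrArg Prod.fst h
    simpa [pt] using this
  have h2 : (ps a).2 = (ps b).2 := by
    have := congrArg Prod.snd h
    simpa [pt] using this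
  have := all_range (all_range pos_check a a.2) b b.2
  simp only [h1, h2, beq_self_eq_true, Bool.and_self, Bool.not_true, Bool.or_false,
    beq_iff_eq] at this
  exact Fin.ext this

/-- orientation over the reals -/
def oriR (a b c : ℝ × ℝ) : ℝ := (b.1 - a.1) * (c.2 - a.2) - (b.2 - a.2) * (c.1 - a.1)

theorem ori_cast (a b c : Fin 55) : oriR (pt a) (pt b) (pt c) = (ori (ps a) (ps b) (ps c) : ℝ) := by
  unfold oriR ori pt
  push_cast
  ring

theorem oriR_segment {a b q : ℝ × ℝ} (h : q ∈ segment ℝ a b) : oriR a b q = 0 := by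
  obtain ⟨s, t, -, -, hst, rfl⟩ := h
  unfold oriR
  simp only [Prod.fst_add, Prod.smul_fst, smul_eq_mul, Prod.snd_add, Prod.smul_snd]
  have : s = 1 - t := by linarith
  rw [this]
  ring

theorem oriR_convex {a b x y q : ℝ × ℝ} (h : q ∈ segment ℝ x y) :
    ∃ s t : ℝ, 0 ≤ s ∧ 0 ≤ t ∧ s + t = 1 ∧ oriR a b q = s * oriR a b x + t * oriR a b y := by
  obtain ⟨s, t, hs, ht, hst, rfl⟩ := h
  refine ⟨s, t, hs, ht, hst, ?_⟩
  unfold oriR
  simp only [Prod.fst_add, Prod.smul_fst, smul_eq_mul, Prod.snd_add, Prod.smul_snd]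
  have : s = 1 - t := by linarith
  rw [this]
  ring

theorem disj_pos {a b x y : ℝ × ℝ} (h1 : 0 < oriR a b x) (h2 : 0 < oriR a b y) {q : ℝ × ℝ}
    (hq : q ∈ segment ℝ a b) (hq' : q ∈ segment ℝ x y) : False := by
  obtain ⟨s, t, hs, ht, hst, h⟩ := oriR_convex (a := a) (b := b) hq'
  rw [oriR_segment hq] at h
  rcases hs.lt_or_eq with h3 | h3
  · have := mul_pos h3 h1
    have := mul_nonneg ht h2.le
    linarith
  · have : t = 1 := by linarith
    rw [← h3, this] at h
    linarith

theorem disj_neg {a b x y : ℝ × ℝ} (h1 : oriR a b x < 0) (h2 : oriR a b y < 0) {q : ℝ × ℝ}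
    (hq : q ∈ segment ℝ a b) (hq' : q ∈ segment ℝ x y) : False := by
  obtain ⟨s, t, hs, ht, hst, h⟩ := oriR_convex (a := a) (b := b) hq'
  rw [oriR_segment hq] at h
  rcases hs.lt_or_eq with h3 | h3
  · have := mul_neg_of_pos_of_neg h3 h1
    have := mul_nonpos_of_nonneg_of_nonpos ht h2.le
    linarith
  · have : t = 1 := by linarith
    rw [← h3, this] at h
    linarith

theorem share {a b y q : ℝ × ℝ} (h : oriR a b y ≠ 0) (hq : q ∈ segment ℝ a b)
    (hq' : q ∈ segment ℝ a y) : q = a := by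
  obtain ⟨s, t, hs, ht, hst, hqe⟩ := hq'
  have h1 := oriR_segment hq
  have h2 : oriR a b q = t * oriR a b y := by
    rw [← hqe]
    unfold oriR
    simp only [Prod.fst_add, Prod.smul_fst, smul_eq_mul, Prod.snd_add, Prod.smul_snd]
    have : s = 1 - t := by linarith
    rw [this]
    ring
  rw [h1] at h2
  have h3 : t = 0 := by
    rcases mul_eq_zero.1 h2.symm with h4 | h4
    · exact h4
    · exact absurd h4 h
  have h4 : s = 1 := by linarith
  rw [← hqe, h3, h4]
  simp

theorem ori_ne {a b c : Fin 55} (h : ori (ps a) (ps b) (ps c) ≠ 0) :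
    oriR (pt a) (pt b) (pt c) ≠ 0 := by
  rw [ori_cast]
  exact_mod_cast h

theorem ori_pos {a b c : Fin 55} (h : 0 < ori (ps a) (ps b) (ps c)) :
    0 < oriR (pt a) (pt b) (pt c) := by
  rw [ori_cast]
  exact_mod_cast h

theorem ori_neg {a b c : Fin 55} (h : ori (ps a) (ps b) (ps c) < 0) :
    oriR (pt a) (pt b) (pt c) < 0 := by
  rw [ori_cast]
  exact_mod_cast h

/-- Two edges in normal form meet only in common ends. -/
theorem meet_aux {a b x y : Fin 55} (h : sepB a b x y = true) {q : ℝ × ℝ}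
    (hq : q ∈ segment ℝ (pt a) (pt b)) (hq' : q ∈ segment ℝ (pt x) (pt y)) :
    ∃ z, q = pt z ∧ (z = a ∨ z = b) ∧ (z = x ∨ z = y) := by
  unfold sepB at h
  split_ifs at h with h1 h2 h3 h4
  · have h1' : a = x := Fin.ext h1
    subst h1'
    have h5 : ori (ps a) (ps b) (ps y) ≠ 0 := by simpa using h
    exact ⟨a, share (ori_ne h5) hq hq', Or.inl rfl, Or.inl rfl⟩
  · have h1' : a = y := Fin.ext h2
    subst h1'
    have h5 : ori (ps a) (ps b) (ps x) ≠ 0 := by simpa using h
    rw [segment_symm] at hq'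
    exact ⟨a, share (ori_ne h5) hq hq', Or.inl rfl, Or.inr rfl⟩
  · have h1' : b = x := Fin.ext h3
    subst h1'
    have h5 : ori (ps b) (ps a) (ps y) ≠ 0 := by simpa using h
    rw [segment_symm] at hq
    exact ⟨b, share (ori_ne h5) hq hq', Or.inr rfl, Or.inl rfl⟩
  · have h1' : b = y := Fin.ext h4
    subst h1'
    have h5 : ori (ps b) (ps a) (ps x) ≠ 0 := by simpa using h
    rw [segment_symm] at hq hq'
    exact ⟨b, share (ori_ne h5) hq hq', Or.inr rfl, Or.inr rfl⟩
  · exfalso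
    simp only [Bool.or_eq_true, Bool.and_eq_true, decide_eq_true_eq] at h
    rcases h with ((⟨h5, h6⟩ | ⟨h5, h6⟩) | ⟨h5, h6⟩) | ⟨h5, h6⟩
    · exact disj_pos (ori_pos h5) (ori_pos h6) hq hq'
    · exact disj_neg (ori_neg h5) (ori_neg h6) hq hq'
    · exact disj_pos (ori_pos h5) (ori_pos h6) hq' hq
    · exact disj_neg (ori_neg h5) (ori_neg h6) hq' hq

theorem edge_norm {a b : Fin 55} (h : G.Adj a b) : ∃ a' b' : Fin 55, s(a, b) = s(a', b') ∧
    ((a' : ℕ), (b' : ℕ)) ∈ edges ∧ segment ℝ (pt a) (pt b) = segment ℝ (pt a') (pt b') := by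
  have h1 := mem_edges a.2 b.2 h
  rcases le_total (a : ℕ) b with h2 | h2
  · rw [min_eq_left h2, max_eq_right h2] at h1
    exact ⟨a, b, rfl, h1, rfl⟩
  · rw [min_eq_right h2, max_eq_left h2] at h1
    exact ⟨b, a, Sym2.eq_swap, h1, segment_symm _ _ _⟩

/-- Two different edges meet only in common ends. -/
theorem meet {a b x y : Fin 55} (hab : G.Adj a b) (hxy : G.Adj x y) (hne : s(a, b) ≠ s(x, y))
    {q : ℝ × ℝ} (hq : q ∈ segment ℝ (pt a) (pt b)) (hq' : q ∈ segment ℝ (pt x) (pt y)) :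
    ∃ z, q = pt z ∧ z ∈ s(a, b) ∧ z ∈ s(x, y) := by
  obtain ⟨a', b', e1, m1, s1⟩ := edge_norm hab
  obtain ⟨x', y', e2, m2, s2⟩ := edge_norm hxy
  rw [s1] at hq
  rw [s2] at hq'
  have h1 := sep_check
  rw [List.all_eq_true] at h1
  have h2 := h1 _ m1
  rw [List.all_eq_true] at h2
  have h3 := h2 _ m2
  simp only [Bool.or_eq_true, Bool.and_eq_true, beq_iff_eq] at h3
  rcases h3 with ⟨h4, h5⟩ | h3
  · exfalso
    apply hne
    rw [e1, e2, Fin.ext h4, Fin.ext h5]
  · obtain ⟨z, hz, hz1, hz2⟩ := meet_aux h3 hq hq'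
    refine ⟨z, hz, ?_, ?_⟩
    · rw [e1, Sym2.mem_iff]; exact hz1
    · rw [e2, Sym2.mem_iff]; exact hz2

theorem vertex_edge {a b z : Fin 55} (hab : G.Adj a b) (h : pt z ∈ segment ℝ (pt a) (pt b)) :
    z = a ∨ z = b := by
  obtain ⟨x, hx, hzx⟩ := has_nbr z.2
  have hzx' : G.Adj z ⟨x, hx⟩ := hzx
  by_cases hne : s(a, b) = s(z, ⟨x, hx⟩)
  · have : z ∈ s(a, b) := by rw [hne]; exact Sym2.mem_mk_left _ _
    exact Sym2.mem_iff.1 this
  · obtain ⟨w, hw, hw1, -⟩ := meet hab hzx' hne h (left_mem_segment ℝ _ _)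
    have : z = w := pt_inj hw
    rw [this]
    exact Sym2.mem_iff.1 hw1

end Pool.Agent.R50.PlanarCograph
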